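import Pool.Agent.H96.CP.Stm6
import Pool.Agent.H52.CP.Box

/-!
# Project CP: `S_boxp` from `S_convp` (after `Pool/Agent/H52/CP/Box.lean`)
-/

set_option autoImplicit false

open Real Set MeasureTheory Metric Filter Topology
open scoped ENNReal Nat ComplexConjugate

namespace Pool.Agent.H61.CP

open Pool.Agent.H96.HD Pool.Agent.H96.CP
open Pool.Agent.H52.CP (measurableSet_conf dfc_inst dfc_defect card_le_of_sep cor mem_Qd_cor)

theorem ZRp_translate (s τ M : ℝ) (z : ℂ) (k : ℕ) : ZRp s τ (Qd M z) k = ZRp s τ (Qd M 0) k := by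
  unfold ZRp
  congr 1
  rw [← lintegral_indicator (measurableSet_conf (Pool.Agent.H52.CP.measurableSet_Qd M z) k),
    ← lintegral_indicator (measurableSet_conf (Pool.Agent.H52.CP.measurableSet_Qd M 0) k)]
  rw [← lintegral_add_right_eq_self (μ := (volume : Measure (Fin k → ℂ)))
    (({x : Fin k → ℂ | (∀ i, x i ∈ Qd M z) ∧ Sep x}).indicator
      (fun x => ENNReal.ofReal (Real.exp (-(s * Wp τ (Qd M z) x))))) (fun _ => z)]
  refine lintegral_congr fun x => ?_
  have hmem : ∀ w : ℂ, w + z ∈ Qd M z ↔ w ∈ Qd M 0 := by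
    intro w
    unfold Qd
    simp only [mem_ofPred_eq, mem_Ico, Complex.add_re, Complex.add_im, Complex.zero_re,
      Complex.zero_im]
    constructor
    · rintro ⟨⟨h1, h2⟩, h3, h4⟩
      refine ⟨⟨?_, ?_⟩, ?_, ?_⟩ <;> linarith
    · rintro ⟨⟨h1, h2⟩, h3, h4⟩
      refine ⟨⟨?_, ?_⟩, ?_, ?_⟩ <;> linarith
  have hball : ∀ w : ℂ, closedBall (w + z) 2 ⊆ Qd M z ↔ closedBall w 2 ⊆ Qd M 0 := by
    intro w
    constructor
    · intro h v hv
      rw [← hmem v]
      apply h
      rw [mem_closedBall] at hv ⊢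
      rwa [dist_add_right]
    · intro h v hv
      have h1 : v - z ∈ closedBall w 2 := by
        rw [mem_closedBall] at hv ⊢
        rw [dist_eq_norm] at hv ⊢
        have : v - z - w = v - (w + z) := by ring
        rwa [this]
      have h2 := (hmem (v - z)).2 (h h1)
      rwa [sub_add_cancel] at h2
  have hSep : Sep (x + fun _ => z) ↔ Sep x := by
    unfold H96.CP.Sep
    simp only [Pi.add_apply, add_sub_add_right_eq_sub]
  have hW : Wp τ (Qd M z) (x + fun _ => z) = Wp τ (Qd M 0) x := by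
    classical
    unfold Wp dfc
    refine Finset.sum_congr rfl fun i _ => ?_
    simp only [Pi.add_apply, add_sub_add_right_eq_sub, hball]
  by_cases hx : (∀ i, x i ∈ Qd M 0) ∧ Sep x
  · rw [indicator_of_mem (show x ∈ {x : Fin k → ℂ | (∀ i, x i ∈ Qd M 0) ∧ Sep x} from hx),
      indicator_of_mem, hW]
    exact ⟨fun i => (hmem _).2 (hx.1 i), hSep.2 hx.2⟩
  · rw [indicator_of_notMem (show x ∉ {x : Fin k → ℂ | (∀ i, x i ∈ Qd M 0) ∧ Sep x} from hx),
      indicator_of_notMem]
    rintro ⟨h1, h2⟩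
    exact hx ⟨fun i => (hmem _).1 (h1 i), hSep.1 h2⟩

theorem ZRp_zero (s τ : ℝ) {M : ℝ} (hM : 0 ≤ M) (k : ℕ) (hk : (M + 1) ^ 2 < k) :
    ZRp s τ (Qd M 0) k = 0 := by
  unfold ZRp
  have : {x : Fin k → ℂ | (∀ i, x i ∈ Qd M 0) ∧ Sep x} = ∅ := by
    ext x
    simp only [mem_ofPred_eq, mem_empty_iff_false, iff_false]
    rintro ⟨h1, h2⟩
    have := card_le_of_sep hM x h1 h2
    linarith
  rw [this, Measure.restrict_empty, lintegral_zero_measure, mul_zero]

theorem ZRp_empty_le (s τ β : ℝ) (N : ℕ) :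
    ZRp s τ ∅ N ≤ ENNReal.ofReal (Real.exp (N * β)) := by
  rcases Nat.eq_zero_or_pos N with rfl | hN
  · unfold ZRp
    have h1 : ∫⁻ x in {x : Fin 0 → ℂ | (∀ i, x i ∈ (∅ : Set ℂ)) ∧ Sep x},
        ENNReal.ofReal (Real.exp (-(s * Wp τ ∅ x))) ≤ 1 := by
      calc _ ≤ ∫⁻ x : Fin 0 → ℂ, ENNReal.ofReal (Real.exp (-(s * Wp τ ∅ x))) :=
            setLIntegral_le_lintegral _ _
        _ = ∫⁻ _x : Fin 0 → ℂ, 1 := by
            refine lintegral_congr fun x => ?_
            have : Wp τ ∅ x = 0 := by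
              unfold Wp
              exact Finset.sum_of_isEmpty _
            rw [this, mul_zero, neg_zero, Real.exp_zero, ENNReal.ofReal_one]
        _ = 1 := by
            rw [lintegral_const, one_mul, volume_pi, Measure.pi_univ]
            simp
    simp only [Nat.factorial_zero, Nat.cast_one, inv_one, one_mul, Nat.cast_zero, zero_mul,
      Real.exp_zero, ENNReal.ofReal_one]
    exact h1
  · unfold ZRp
    have : {x : Fin N → ℂ | (∀ i, x i ∈ (∅ : Set ℂ)) ∧ Sep x} = ∅ := by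
      ext x
      simp only [mem_empty_iff_false, mem_ofPred_eq, iff_false]
      rintro ⟨h1, -⟩
      exact h1 ⟨0, hN⟩
    rw [this, Measure.restrict_empty, lintegral_zero_measure, mul_zero]
    exact zero_le

/-- the bound for a union of squares -/
theorem ZRp_union (hconv : S_convp) {s τ M β δ : ℝ} (hs : 0 ≤ s) (hτ : 0 ≤ τ) (hM : 1 ≤ M)
    (h : ∀ k : ℕ, ZRp s τ (Qd M 0) k ≤ ENNReal.ofReal (Real.exp (k * β + δ)))
    (T : Finset (ℕ × ℕ)) : ∀ N : ℕ, ZRp s τ (⋃ p ∈ T, Qd M (cor M p)) N ≤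
      ENNReal.ofReal (Real.exp (N * β + T.card * δ) * (4 * (M + 1) ^ 2 + 1) ^ T.card) := by
  classical
  have hM0 : 0 < M := by linarith
  induction T using Finset.induction_on with
  | empty =>
    intro N
    simp only [Finset.notMem_empty, iUnion_of_empty, iUnion_empty, Finset.card_empty, Nat.cast_zero,
      zero_mul, add_zero, pow_zero, mul_one]
    exact ZRp_empty_le s τ β N
  | insert p T hp ih =>
    intro N
    rw [Finset.set_biUnion_insert, union_comm]
    have hmeas : MeasurableSet (⋃ q ∈ T, Qd M (cor M q)) :=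
      Finset.measurableSet_biUnion _ fun q _ => Pool.Agent.H52.CP.measurableSet_Qd M _
    have hdisj : Disjoint (⋃ q ∈ T, Qd M (cor M q)) (Qd M (cor M p)) := by
      rw [Set.disjoint_left]
      intro w hw1 hw2
      simp only [mem_iUnion] at hw1
      obtain ⟨q, hq, hw1⟩ := hw1
      have e1 := mem_Qd_cor hM0 hw1
      have e2 := mem_Qd_cor hM0 hw2
      have : p = q := Prod.ext (e2.1.symm.trans e1.1) (e2.2.symm.trans e1.2)
      exact hp (this ▸ hq)
    refine (hconv s τ _ _ hs hτ hmeas (Pool.Agent.H52.CP.measurableSet_Qd M _) hdisj N).trans ?_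
    set c : ℝ := 4 * (M + 1) ^ 2 + 1 with hc
    have hc0 : 0 < c := by positivity
    set V : ℝ := Real.exp (N * β + (T.card + 1) * δ) * c ^ T.card with hV
    have hV0 : 0 ≤ V := by positivity
    have hterm : ∀ r ∈ Finset.HasAntidiagonal.antidiagonal N,
        ZRp s τ (⋃ q ∈ T, Qd M (cor M q)) r.1 * ZRp s τ (Qd M (cor M p)) r.2 ≤
          if (r.2 : ℝ) ≤ (M + 1) ^ 2 then ENNReal.ofReal V else 0 := by
      intro r hr
      replace hr := Finset.HasAntidiagonal.mem_antidiagonal.1 hr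
      rw [ZRp_translate]
      split_ifs with h1
      · refine (mul_le_mul' (ih r.1) (h r.2)).trans ?_
        rw [← ENNReal.ofReal_mul (by positivity)]
        refine ENNReal.ofReal_le_ofReal (le_of_eq ?_)
        rw [hV]
        have e1 : (N : ℝ) = r.1 + r.2 := by
          rw [← hr]
          push_cast
          rfl
        rw [e1]
        have e2 : Real.exp ((r.1 + r.2 : ℝ) * β + (T.card + 1) * δ) =
            Real.exp (r.1 * β + T.card * δ) * Real.exp (r.2 * β + δ) := by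
          rw [← Real.exp_add]
          ring_nf
        rw [e2]
        ring
      · rw [ZRp_zero s τ hM0.le r.2 (not_le.1 h1), mul_zero]
    refine (Finset.sum_le_sum hterm).trans ?_
    rw [← Finset.sum_filter, Finset.sum_const, nsmul_eq_mul]
    have hcard : (((Finset.HasAntidiagonal.antidiagonal N).filter
        fun r : ℕ × ℕ => (r.2 : ℝ) ≤ (M + 1) ^ 2).card : ℝ) ≤ c := by
      have h1 : ((Finset.HasAntidiagonal.antidiagonal N).filter
          fun r : ℕ × ℕ => (r.2 : ℝ) ≤ (M + 1) ^ 2).card ≤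
          (Finset.range (⌊(M + 1) ^ 2⌋₊ + 1)).card := by
        refine Finset.card_le_card_of_injOn Prod.snd (fun r hr => ?_) (fun r hr r' hr' hrr => ?_)
        · rw [Finset.mem_coe, Finset.mem_filter] at hr
          rw [Finset.mem_coe, Finset.mem_range, Nat.lt_succ_iff]
          exact Nat.le_floor hr.2
        · rw [Finset.mem_coe, Finset.mem_filter] at hr hr'
          refine Prod.ext ?_ hrr
          have e1 := Finset.HasAntidiagonal.mem_antidiagonal.1 hr.1
          have e2 := Finset.HasAntidiagonal.mem_antidiagonal.1 hr'.1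
          omega
      rw [Finset.card_range] at h1
      have h2 := Nat.floor_le (sq_nonneg (M + 1))
      have h3 : ((⌊(M + 1) ^ 2⌋₊ + 1 : ℕ) : ℝ) ≤ c := by
        push_cast
        rw [hc]
        nlinarith [sq_nonneg (M + 1)]
      exact le_trans (by exact_mod_cast h1) h3
    rw [← ENNReal.ofReal_natCast, ← ENNReal.ofReal_mul (Nat.cast_nonneg _)]
    refine ENNReal.ofReal_le_ofReal ?_
    refine (mul_le_mul_of_nonneg_right hcard hV0).trans (le_of_eq ?_)
    rw [hV, Finset.card_insert_of_notMem hp, pow_succ]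
    push_cast
    ring

theorem boxp (hconv : S_convp) : S_boxp := by
  intro s τ M β δ hs hτ hM hδ h K N L hL hLK
  classical
  have hM0 : 0 < M := by linarith
  set T : Finset (ℕ × ℕ) := Finset.range K ×ˢ Finset.range K with hT
  have hTc : T.card = K ^ 2 := by
    rw [hT, Finset.card_product, Finset.card_range]
    ring
  set Λ : Set ℂ := ⋃ p ∈ T, Qd M (cor M p) with hΛ
  have hsub : Sq L ⊆ Λ := by
    rintro w ⟨⟨h1, h2⟩, h3, h4⟩
    rw [hΛ]
    simp only [mem_iUnion]
    have key : ∀ t : ℝ, 0 ≤ t → t ≤ L → ⌊t / M⌋₊ < K ∧ (⌊t / M⌋₊ : ℝ) * M ≤ t ∧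
        t < (⌊t / M⌋₊ : ℝ) * M + M := by
      intro t ht0 htL
      have h5 : 0 ≤ t / M := by positivity
      refine ⟨?_, ?_, ?_⟩
      · rw [Nat.floor_lt h5, div_lt_iff₀ hM0]
        linarith
      · have := Nat.floor_le h5
        rwa [le_div_iff₀ hM0] at this
      · have := Nat.lt_floor_add_one (t / M)
        rw [div_lt_iff₀ hM0] at this
        linarith
    obtain ⟨a1, a2, a3⟩ := key w.re h1 h2
    obtain ⟨b1, b2, b3⟩ := key w.im h3 h4
    refine ⟨(⌊w.re / M⌋₊, ⌊w.im / M⌋₊), ?_, ?_⟩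
    · rw [hT, Finset.mem_product, Finset.mem_range, Finset.mem_range]
      exact ⟨a1, b1⟩
    · exact ⟨⟨a2, a3⟩, b2, b3⟩
  have hKc : MeasurableSet (Kc N L) := by
    have e : Kc N L = {x : Fin N → ℂ | (∀ i, x i ∈ Sq L) ∧ Sep x} := rfl
    rw [e]
    exact measurableSet_conf (measurableSet_Sq L) N
  set S : Set (Fin N → ℂ) := {x | (∀ i, x i ∈ Λ) ∧ Sep x} with hS
  have hKS : Kc N L ⊆ S := fun x hx => ⟨fun i => hsub (hx.1 i), hx.2⟩
  set E : ℝ := (L + 2) ^ 2 - N * v0 with hE
  have hWE : ∀ x ∈ Kc N L, Wp τ Λ x + 1 / 2 * Dl τ x ≤ E := by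
    intro x hx
    refine le_trans ?_ (sum_defect_le' hL hx)
    unfold Wp Dl
    rw [Finset.mul_sum, ← Finset.sum_add_distrib]
    refine Finset.sum_le_sum fun i _ => ?_
    have h0 := (stab hx i).1
    rw [dfc_inst _ (instDecidableEqFin N), dfc_defect]
    unfold ph
    split_ifs <;> linarith
  have h1 : ∫⁻ x in Kc N L, ENNReal.ofReal (Real.exp (s / 2 * Dl τ x)) ≤
      ENNReal.ofReal (Real.exp (s * E)) *
      ∫⁻ x in S, ENNReal.ofReal (Real.exp (-(s * Wp τ Λ x))) := by
    rw [← lintegral_const_mul' _ _ ENNReal.ofReal_ne_top]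
    calc ∫⁻ x in Kc N L, ENNReal.ofReal (Real.exp (s / 2 * Dl τ x))
        ≤ ∫⁻ x in Kc N L, ENNReal.ofReal (Real.exp (s * E)) *
          ENNReal.ofReal (Real.exp (-(s * Wp τ Λ x))) := by
          refine setLIntegral_mono' hKc fun x hx => ?_
          rw [← ENNReal.ofReal_mul (Real.exp_pos _).le, ← Real.exp_add]
          refine ENNReal.ofReal_le_ofReal ?_
          apply Real.exp_le_exp.2
          have := mul_le_mul_of_nonneg_left (hWE x hx) hs
          linarith
      _ ≤ _ := lintegral_mono_set hKS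
  have h2 : ∫⁻ x in S, ENNReal.ofReal (Real.exp (-(s * Wp τ Λ x))) =
      ((N ! : ℕ) : ℝ≥0∞) * ZRp s τ Λ N := by
    unfold ZRp
    rw [← mul_assoc, ENNReal.mul_inv_cancel, one_mul]
    · exact_mod_cast (Nat.factorial_ne_zero N)
    · exact ENNReal.natCast_ne_top _
  have h3 := ZRp_union hconv hs hτ hM h T N
  rw [← hΛ, hTc] at h3
  have h4 : Real.exp (N * β + ((K ^ 2 : ℕ) : ℝ) * δ) * (4 * (M + 1) ^ 2 + 1) ^ K ^ 2 =
      Real.exp (N * β + (K : ℝ) ^ 2 * (δ + Real.log (4 * (M + 1) ^ 2 + 1))) := by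
    have hc0 : 0 < 4 * (M + 1) ^ 2 + 1 := by positivity
    have e1 : (4 * (M + 1) ^ 2 + 1) ^ K ^ 2 =
        Real.exp (((K ^ 2 : ℕ) : ℝ) * Real.log (4 * (M + 1) ^ 2 + 1)) := by
      rw [Real.exp_nat_mul, Real.exp_log hc0]
    rw [e1, ← Real.exp_add]
    congr 1
    push_cast
    ring
  rw [h4] at h3
  rw [h2] at h1
  refine h1.trans ?_
  calc ENNReal.ofReal (Real.exp (s * E)) * (((N ! : ℕ) : ℝ≥0∞) * ZRp s τ Λ N) ≤
        ENNReal.ofReal (Real.exp (s * E)) * (((N ! : ℕ) : ℝ≥0∞) *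
          ENNReal.ofReal (Real.exp (N * β + (K : ℝ) ^ 2 *
            (δ + Real.log (4 * (M + 1) ^ 2 + 1))))) := by gcongr
    _ = _ := by
        rw [← ENNReal.ofReal_natCast, ← ENNReal.ofReal_mul (Nat.cast_nonneg _),
          ← ENNReal.ofReal_mul (Real.exp_pos _).le]
        congr 1
        have e1 : s * E + N * β + (K : ℝ) ^ 2 * (δ + Real.log (4 * (M + 1) ^ 2 + 1)) =
            s * E + (N * β + (K : ℝ) ^ 2 * (δ + Real.log (4 * (M + 1) ^ 2 + 1))) := by ring
        rw [e1, Real.exp_add (s * E)]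
        ring

end Pool.Agent.H61.CP
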