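import Pool.Agent.H96.CP.Stm7

set_option autoImplicit false

open Real Set MeasureTheory Metric Filter Topology
open scoped ENNReal Nat ComplexConjugate

namespace Pool.Agent.H96.CP

open Pool.Agent.H96.HD

theorem norm_iff_sq {a : ℝ} (ha : 0 < a) (z w : ℂ) :
    2 * a ≤ ‖z - w‖ ↔ (2 * a) ^ 2 ≤ (z.re - w.re) ^ 2 + (z.im - w.im) ^ 2 := by
  have h : ‖z - w‖ ^ 2 = (z.re - w.re) ^ 2 + (z.im - w.im) ^ 2 := by
    rw [Complex.sq_norm, Complex.normSq_apply, Complex.sub_re, Complex.sub_im]
    ring
  rw [← h]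
  exact (sq_le_sq₀ (by positivity) (norm_nonneg _)).symm

theorem cvz : S_CVZ := by
  intro a L N ha
  unfold CV Z
  rw [← mul_assoc, mul_inv_cancel₀ (by positivity), one_mul]
  have hp : MeasurePreserving (MeasurableEquiv.piCongrRight (fun _ : Fin N => Complex.measurableEquivPi))
      volume volume :=
    volume_preserving_pi (fun _ : Fin N => Complex.volume_preserving_equiv_pi)
  rw [← hp.measure_preimage_equiv]
  congr 2
  ext x
  have h0 : ∀ i, MeasurableEquiv.piCongrRight (fun _ : Fin N => Complex.measurableEquivPi) x i 0 = (x i).re :=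
    fun i => rfl
  have h1 : ∀ i, MeasurableEquiv.piCongrRight (fun _ : Fin N => Complex.measurableEquivPi) x i 1 = (x i).im :=
    fun i => rfl
  simp only [CC, mem_preimage, mem_ofPred_eq, Fin.forall_fin_two, Fin.sum_univ_two, h0, h1, norm_iff_sq ha]

end Pool.Agent.H96.CP
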