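import Pool.Agent.H61.CP.Ratio
import Pool.Agent.H96.CP.Stm8

set_option autoImplicit false

open Real Set MeasureTheory Metric Filter Topology
open scoped ENNReal Nat ComplexConjugate

namespace Pool.Agent.H96.CP

theorem AA_sub (a L : ℝ) {N : ℕ} (x : Fin N → ℂ) : AA a L x ⊆ closedBall 0 (2 * |L|) := by
  intro y hy
  rw [mem_closedBall, dist_zero_right]
  obtain ⟨h2, h3⟩ := hy.1
  refine (Complex.norm_le_abs_re_add_abs_im _).trans ?_
  rw [abs_of_nonneg h2.1, abs_of_nonneg h3.1]
  have := le_abs_self L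
  linarith [h2.2, h3.2]

/-- the second moment -/
theorem second (a L : ℝ) (ha : 0 < a) (N : ℕ) :
    ∫⁻ x in CC a L (Fin N), volume (AA a L x) ^ 2 ≤ volume (CC a L (Fin (N + 2))) +
      ENNReal.ofReal (4 * π * a ^ 2) * volume (CC a L (Fin (N + 1))) := by
  have h1 := fub a L N 1
  have h2 := fub a L N 2
  simp_rw [two_eq] at h2
  have hm : Measurable (fun x : Fin N → ℂ => volume (Prod.mk x ⁻¹' TT a L N 1)) :=
    measurable_measure_prodMk_left (TT_meas a L N 1)
  simp_rw [one_eq] at h1 hm
  rw [h1, h2, ← lintegral_const_mul _ hm, ← lintegral_add_right _ (hm.const_mul _)]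
  exact lintegral_mono fun x => pt_bound ha L x

theorem cheb : S_cheb := by
  intro a L ε N ha hL hε hV0
  set μ := volume.restrict (CC a L (Fin N)) with hμ
  have hfin : IsFiniteMeasure μ := ⟨by
    rw [hμ, Measure.restrict_apply_univ]
    exact (CC_fin a L N).lt_top⟩
  have hFm : Measurable (fun x : Fin N → ℂ => volume (AA a L x)) := by
    have hm : Measurable (fun x : Fin N → ℂ => volume (Prod.mk x ⁻¹' TT a L N 1)) :=
      measurable_measure_prodMk_left (TT_meas a L N 1)
    simp_rw [one_eq] at hm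
    exact hm
  have hFA : ∀ x : Fin N → ℂ, FA a L x = (volume (AA a L x)).toReal := fun x => rfl
  have hFf : ∀ x : Fin N → ℂ, volume (AA a L x) < ∞ := fun x =>
    (measure_mono (AA_sub a L x)).trans_lt measure_closedBall_lt_top
  have hFAm : Measurable (fun x : Fin N → ℂ => FA a L x) := hFm.ennreal_toReal
  have hFA0 : ∀ x : Fin N → ℂ, 0 ≤ FA a L x := fun x => ENNReal.toReal_nonneg
  obtain ⟨B, hB⟩ : ∃ B : ℝ, ∀ x : Fin N → ℂ, FA a L x ≤ B :=
    ⟨(volume (closedBall (0 : ℂ) (2 * |L|))).toReal, fun x =>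
      ENNReal.toReal_mono measure_closedBall_lt_top.ne (measure_mono (AA_sub a L x))⟩
  have hi1 : Integrable (fun x : Fin N → ℂ => FA a L x) μ :=
    Integrable.of_bound hFAm.aestronglyMeasurable B (Eventually.of_forall fun x => by
      rw [Real.norm_of_nonneg (hFA0 x)]
      exact hB x)
  have hi2 : Integrable (fun x : Fin N → ℂ => FA a L x ^ 2) μ :=
    Integrable.of_bound (hFAm.pow_const 2).aestronglyMeasurable (B ^ 2) (Eventually.of_forall fun x => by
      rw [Real.norm_of_nonneg (by positivity)]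
      exact pow_le_pow_left₀ (hFA0 x) (hB x) 2)
  have e0 : μ.real univ = CV a L N := by
    rw [measureReal_def, hμ, Measure.restrict_apply_univ]
    rfl
  have e1 : ∫ x, FA a L x ∂μ = CV a L (N + 1) := by
    have h1 := fub a L N 1
    simp_rw [one_eq] at h1
    unfold CV
    rw [h1]
    exact integral_toReal hFm.aemeasurable (Eventually.of_forall fun x => hFf x)
  have e2 : ∫ x, FA a L x ^ 2 ∂μ ≤ CV a L (N + 2) + 4 * π * a ^ 2 * CV a L (N + 1) := by
    have h1 : ∫ x, FA a L x ^ 2 ∂μ = (∫⁻ x, volume (AA a L x) ^ 2 ∂μ).toReal := by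
      rw [← integral_toReal (hFm.pow_const 2).aemeasurable
        (Eventually.of_forall fun x => ENNReal.pow_lt_top (hFf x))]
      refine integral_congr_ae (Eventually.of_forall fun x => ?_)
      simp only [ENNReal.toReal_pow, hFA]
    have f1 := CC_fin a L (N + 1)
    have f2 := CC_fin a L (N + 2)
    have h6 := ENNReal.toReal_mono (by finiteness) (second a L ha N)
    rw [ENNReal.toReal_add (by finiteness) (by finiteness), ENNReal.toReal_mul,
      ENNReal.toReal_ofReal (by positivity)] at h6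
    rw [h1]
    exact h6
  set m := CV a L (N + 1) / CV a L N with hm
  have hm0 : 0 ≤ m := div_nonneg ENNReal.toReal_nonneg ENNReal.toReal_nonneg
  have e3 : ∫ x, (FA a L x - m) ^ 2 ∂μ = ∫ x, FA a L x ^ 2 ∂μ - CV a L (N + 1) ^ 2 / CV a L N := by
    have h1 : ∀ x : Fin N → ℂ, (FA a L x - m) ^ 2 = FA a L x ^ 2 - 2 * m * FA a L x + m ^ 2 := fun x => by ring
    have hi4 : Integrable (fun x : Fin N → ℂ => FA a L x ^ 2 - 2 * m * FA a L x) μ :=
      hi2.sub (hi1.const_mul _)
    simp_rw [h1]
    rw [integral_add hi4 (integrable_const _), integral_sub hi2 (hi1.const_mul _),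
      integral_const_mul, e1, integral_const, e0, smul_eq_mul, hm]
    field_simp
    ring
  have hi3 : Integrable (fun x : Fin N → ℂ => (FA a L x - m) ^ 2) μ := by
    have h1 : (fun x : Fin N → ℂ => (FA a L x - m) ^ 2) =
        fun x => FA a L x ^ 2 - 2 * m * FA a L x + m ^ 2 := by
      funext x
      ring
    rw [h1]
    exact (hi2.sub (hi1.const_mul _)).add (integrable_const _)
  have e4 := mul_meas_ge_le_integral_of_nonneg (μ := μ) (f := fun x : Fin N → ℂ => (FA a L x - m) ^ 2)
    (Eventually.of_forall fun x => sq_nonneg _) hi3 ((ε * m) ^ 2)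
  have e5 : μ.real {x : Fin N → ℂ | (ε * m) ^ 2 ≤ (FA a L x - m) ^ 2} =
      (volume {x : Fin N → ℂ | x ∈ CC a L (Fin N) ∧ ε * m ≤ |FA a L x - m|}).toReal := by
    rw [measureReal_def, hμ, Measure.restrict_apply' (CC_meas a L N)]
    congr 2
    ext x
    simp only [mem_inter_iff, mem_ofPred_eq]
    rw [and_comm]
    refine and_congr_right fun _ => ?_
    rw [← sq_abs (FA a L x - m)]
    exact sq_le_sq₀ (by positivity) (abs_nonneg _)
  rw [e5] at e4
  rw [mul_comm]
  refine e4.trans ?_
  rw [e3]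
  linarith

end Pool.Agent.H96.CP
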