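import Pool.Agent.H61.CP.Near

/-! Project CP (helper96): lemmas on the triangular lattice. -/

set_option autoImplicit false

open Real Set MeasureTheory Metric Filter Topology
open scoped ENNReal Nat ComplexConjugate

namespace Pool.Agent.H61.CP

open Pool.Agent.H96.CP

lemma norm_sq_form (x y : ℝ) : ‖(x : ℂ) + y * om‖ ^ 2 = x ^ 2 + x * y + y ^ 2 := by
  rw [← Complex.normSq_eq_norm_sq, Complex.normSq_apply]
  simp only [om, Complex.add_re, Complex.ofReal_re, Complex.mul_re, Complex.ofReal_im,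
    Complex.add_im, Complex.mul_im, zero_mul, sub_zero, zero_add, add_zero]
  have h : √3 * √3 = 3 := Real.mul_self_sqrt (by norm_num)
  linear_combination (y ^ 2 / 4) * h

lemma norm_sqrt3_exp (θ : ℝ) : ‖((√3 : ℝ) : ℂ) * Complex.exp (θ * Complex.I)‖ = √3 := by
  rw [norm_mul, Complex.norm_exp_ofReal_mul_I, mul_one, Complex.norm_real, Real.norm_eq_abs,
    abs_of_nonneg (Real.sqrt_nonneg 3)]

lemma lat_sub (z₀ : ℂ) (θ : ℝ) (a b a' b' : ℤ) : lat z₀ θ a b - lat z₀ θ a' b' =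
    (√3 : ℝ) * Complex.exp (θ * Complex.I) *
      ((((a - a' : ℤ) : ℝ) : ℂ) + (((b - b' : ℤ) : ℝ) : ℂ) * om) := by
  unfold lat
  push_cast
  ring

/-- the norm form -/
def Q (a b : ℤ) : ℤ := a ^ 2 + a * b + b ^ 2

lemma norm_lat_sub (z₀ : ℂ) (θ : ℝ) (a b a' b' : ℤ) :
    ‖lat z₀ θ a b - lat z₀ θ a' b'‖ ^ 2 = 3 * (Q (a - a') (b - b') : ℝ) := by
  rw [lat_sub, norm_mul, mul_pow, norm_sqrt3_exp, norm_sq_form, Real.sq_sqrt (by norm_num), Q]
  push_cast
  ring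

lemma Q_pos {a b : ℤ} (h : (a, b) ≠ (0, 0)) : 1 ≤ Q a b := by
  have h1 : 4 * Q a b = (2 * a + b) ^ 2 + 3 * b ^ 2 := by unfold Q; ring
  by_contra hcon
  push Not at hcon
  have h2 : (2 * a + b) ^ 2 + 3 * b ^ 2 ≤ 0 := by linarith
  have h3 : b = 0 := by nlinarith [sq_nonneg (2 * a + b), sq_nonneg b]
  subst h3
  have h4 : a = 0 := by nlinarith
  subst h4
  exact h rfl

lemma lat_sep {z₀ : ℂ} {θ : ℝ} {a b a' b' : ℤ} (h : (a, b) ≠ (a', b')) :
    √3 ≤ ‖lat z₀ θ a b - lat z₀ θ a' b'‖ := by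
  have h1 : (1 : ℤ) ≤ Q (a - a') (b - b') := by
    apply Q_pos
    intro h2
    apply h
    rw [Prod.mk.injEq] at h2 ⊢
    omega
  have h2 : (1 : ℝ) ≤ (Q (a - a') (b - b') : ℝ) := by exact_mod_cast h1
  refine (Real.sqrt_le_left (norm_nonneg _)).2 ?_
  rw [norm_lat_sub]
  linarith

/-- the six neighbours -/
lemma lat_near {z₀ : ℂ} {θ : ℝ} {a b a' b' : ℤ} (h : (a, b) ≠ (a', b'))
    (h3 : ‖lat z₀ θ a b - lat z₀ θ a' b'‖ < 3) : (a - a', b - b') ∈
      ({(1, 0), (-1, 0), (0, 1), (0, -1), (1, -1), (-1, 1)} : Finset (ℤ × ℤ)) := by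
  have h1 : ‖lat z₀ θ a b - lat z₀ θ a' b'‖ ^ 2 < 9 := by
    nlinarith [norm_nonneg (lat z₀ θ a b - lat z₀ θ a' b')]
  rw [norm_lat_sub] at h1
  have h2 : (Q (a - a') (b - b') : ℝ) < ((3 : ℤ) : ℝ) := by push_cast; linarith
  have h4 : Q (a - a') (b - b') < 3 := by exact_mod_cast h2
  have h5 : ¬ (a - a' = 0 ∧ b - b' = 0) := by
    rintro ⟨h6, h7⟩
    apply h
    rw [Prod.mk.injEq]
    omega
  generalize a - a' = x at h4 h5 ⊢
  generalize b - b' = y at h4 h5 ⊢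
  unfold Q at h4
  have hx1 : x ≤ 1 := by nlinarith [sq_nonneg (x + 2 * y)]
  have hx2 : -1 ≤ x := by nlinarith [sq_nonneg (x + 2 * y)]
  have hy1 : y ≤ 1 := by nlinarith [sq_nonneg (2 * x + y)]
  have hy2 : -1 ≤ y := by nlinarith [sq_nonneg (2 * x + y)]
  interval_cases x <;> interval_cases y <;> simp_all

lemma tri0 {x y : ℝ} (hx : 0 ≤ x) (hy : 0 ≤ y) (h1 : 2 * x + y ≤ 1) (h2 : x + 2 * y ≤ 1) :
    x ^ 2 + x * y + y ^ 2 ≤ 1 / 3 := by
  rcases le_total y x with h | h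
  · nlinarith
  · nlinarith

lemma tri {x y : ℝ} (hx : 0 ≤ x) (hy : 0 ≤ y) (h : x + y ≤ 1) :
    x ^ 2 + x * y + y ^ 2 ≤ 1 / 3 ∨ (x - 1) ^ 2 + (x - 1) * y + y ^ 2 ≤ 1 / 3 ∨
      x ^ 2 + x * (y - 1) + (y - 1) ^ 2 ≤ 1 / 3 := by
  rcases le_total x (1 - x - y) with h1 | h1
  · rcases le_total y (1 - x - y) with h2 | h2
    · exact Or.inl (tri0 hx hy (by linarith) (by linarith))
    · right; right
      have := tri0 (x := x) (y := 1 - x - y) hx (by linarith) (by linarith) (by linarith)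
      nlinarith
  · rcases le_total y x with h2 | h2
    · right; left
      have := tri0 (x := y) (y := 1 - x - y) hy (by linarith) (by linarith) (by linarith)
      nlinarith
    · right; right
      have := tri0 (x := x) (y := 1 - x - y) hx (by linarith) (by linarith) (by linarith)
      nlinarith

/-- the covering radius -/
lemma lat_cover (z₀ : ℂ) (θ : ℝ) (z : ℂ) : ∃ a b : ℤ, ‖z - lat z₀ θ a b‖ ≤ 1 := by
  have h3 : 0 < √3 := Real.sqrt_pos.2 (by norm_num)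
  set E : ℂ := (√3 : ℝ) * Complex.exp (θ * Complex.I) with hE
  have hE0 : E ≠ 0 := by
    rw [← norm_ne_zero_iff, hE, norm_sqrt3_exp]
    exact h3.ne'
  obtain ⟨α, β, hαβ⟩ : ∃ α β : ℝ, z = z₀ + E * ((α : ℂ) + β * om) := by
    set w := (z - z₀) / E with hw
    refine ⟨w.re - w.im / √3, 2 * w.im / √3, ?_⟩
    have h4 : (((w.re - w.im / √3 : ℝ) : ℂ) + ((2 * w.im / √3 : ℝ) : ℂ) * om) = w := by
      apply Complex.ext
      · simp only [om, Complex.add_re, Complex.ofReal_re, Complex.mul_re, Complex.ofReal_im,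
          zero_mul, sub_zero]
        ring
      · simp only [om, Complex.add_im, Complex.ofReal_re, Complex.mul_im, Complex.ofReal_im,
          zero_mul, add_zero, zero_add]
        field_simp
    rw [h4, hw, mul_div_cancel₀ _ hE0]
    ring
  have key : ∀ a b : ℤ, (α - a) ^ 2 + (α - a) * (β - b) + (β - b) ^ 2 ≤ 1 / 3 →
      ‖z - lat z₀ θ a b‖ ≤ 1 := by
    intro a b hab
    have h4 : z - lat z₀ θ a b = E * (((α - a : ℝ) : ℂ) + ((β - b : ℝ) : ℂ) * om) := by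
      rw [hαβ, lat, hE]
      push_cast
      ring
    have h5 : ‖z - lat z₀ θ a b‖ ^ 2 ≤ 1 := by
      rw [h4, norm_mul, mul_pow, hE, norm_sqrt3_exp, norm_sq_form, Real.sq_sqrt (by norm_num)]
      linarith
    nlinarith [norm_nonneg (z - lat z₀ θ a b)]
  have hx0 := Int.fract_nonneg α
  have hy0 := Int.fract_nonneg β
  have hx1 := (Int.fract_lt_one α).le
  have hy1 := (Int.fract_lt_one β).le
  have hα : α = ⌊α⌋ + Int.fract α := (Int.floor_add_fract α).symm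
  have hβ : β = ⌊β⌋ + Int.fract β := (Int.floor_add_fract β).symm
  set a := ⌊α⌋
  set b := ⌊β⌋
  set x := Int.fract α
  set y := Int.fract β
  rcases le_total (x + y) 1 with h | h
  · rcases tri hx0 hy0 h with h1 | h1 | h1
    · refine ⟨a, b, key _ _ ?_⟩
      rw [hα, hβ]
      convert h1 using 1; ring
    · refine ⟨a + 1, b, key _ _ ?_⟩
      rw [hα, hβ]; push_cast
      convert h1 using 1; ring
    · refine ⟨a, b + 1, key _ _ ?_⟩
      rw [hα, hβ]; push_cast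
      convert h1 using 1; ring
  · rcases tri (x := 1 - x) (y := 1 - y) (by linarith) (by linarith) (by linarith) with h1 | h1 | h1
    · refine ⟨a + 1, b + 1, key _ _ ?_⟩
      rw [hα, hβ]; push_cast
      convert h1 using 1; ring
    · refine ⟨a, b + 1, key _ _ ?_⟩
      rw [hα, hβ]; push_cast
      convert h1 using 1; ring
    · refine ⟨a + 1, b, key _ _ ?_⟩
      rw [hα, hβ]; push_cast
      convert h1 using 1; ring

lemma occ_unique {ι : Type*} {x : ι → ℂ} (hx : Sep x) {z : ℂ} {r r' : ℝ} {i j : ι}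
    (hi : ‖x i - z‖ ≤ r) (hj : ‖x j - z‖ ≤ r') (h : r + r' < √3) : i = j := by
  by_contra hne
  have h1 := hx i j hne
  have h2 : ‖x i - x j‖ ≤ ‖x i - z‖ + ‖x j - z‖ := by
    rw [show x i - x j = (x i - z) - (x j - z) by ring]
    exact norm_sub_le _ _
  linarith

lemma inner_of_near {c r M : ℝ} {w w' : ℂ} (h : w ∈ inner c M) (h' : ‖w' - w‖ ≤ r) :
    w' ∈ inner (c - r) M := by
  obtain ⟨⟨h1, h2⟩, ⟨h3, h4⟩⟩ := h
  have h5 := abs_le.1 ((Complex.abs_re_le_norm (w' - w)).trans h')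
  have h6 := abs_le.1 ((Complex.abs_im_le_norm (w' - w)).trans h')
  rw [Complex.sub_re] at h5
  rw [Complex.sub_im] at h6
  exact ⟨⟨by linarith, by linarith⟩, ⟨by linarith, by linarith⟩⟩

lemma inner_mono {c c' M : ℝ} (h : c' ≤ c) : inner c M ⊆ inner c' M := by
  rintro w ⟨⟨h1, h2⟩, ⟨h3, h4⟩⟩
  exact ⟨⟨by linarith, by linarith⟩, ⟨by linarith, by linarith⟩⟩

end Pool.Agent.H61.CP
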