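import Pool.Agent.H96.CP.Stm2
import Pool.Agent.H31.CP.Conv
import Pool.Agent.H61.CP.Lat

/-! Project CP (helper96), module S_fix: integral over the configurations near a given lattice. -/

set_option autoImplicit false

open Real Set MeasureTheory Metric Filter Topology
open scoped ENNReal Nat ComplexConjugate

namespace Pool.Agent.H61.CP

open Pool.Agent.H96.CP
open Pool.Agent.H96.HD (phi al al_le al_neg al_nonneg)
open Pool.Agent.H31.CP (phi_nonneg al_eq_zero dfc_nonneg)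

section defect

variable {z₀ : ℂ} {θ δ M : ℝ} {k : ℕ} {x : Fin k → ℂ}

/-- the near neighbours of a point at a site -/
lemma nbr_card (hx : x ∈ Gd z₀ θ δ M k) (hδ : δ ≤ 1 / 10) {i : Fin k} {a b : ℤ}
    (hab : lat z₀ θ a b ∈ inner 13 M) (hi : ‖x i - lat z₀ θ a b‖ ≤ δ) :
    (Finset.univ.filter fun j => j ≠ i ∧ ‖x j - x i‖ < 2).card ≤ 6 := by
  have h3 := lt_sqrt3
  obtain ⟨-, hsep, hocc⟩ := hx
  set J := Finset.univ.filter fun j => j ≠ i ∧ ‖x j - x i‖ < 2 with hJ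
  have key : ∀ j ∈ J, ∃ c : ℤ × ℤ, ‖x j - lat z₀ θ c.1 c.2‖ ≤ δ ∧ (c.1 - a, c.2 - b) ∈
      ({(1, 0), (-1, 0), (0, 1), (0, -1), (1, -1), (-1, 1)} : Finset (ℤ × ℤ)) := by
    intro j hj
    obtain ⟨hji, hj2⟩ := (Finset.mem_filter.1 hj).2
    obtain ⟨a', b', h1⟩ := lat_cover z₀ θ (x j)
    have h4 : ‖lat z₀ θ a' b' - lat z₀ θ a b‖ ≤ ‖x j - lat z₀ θ a' b'‖ + ‖x j - x i‖ +
        ‖x i - lat z₀ θ a b‖ := by
      calc ‖lat z₀ θ a' b' - lat z₀ θ a b‖ = ‖(x j - x i) + (x i - lat z₀ θ a b) -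
            (x j - lat z₀ θ a' b')‖ := by congr 1; ring
        _ ≤ ‖(x j - x i) + (x i - lat z₀ θ a b)‖ + ‖x j - lat z₀ θ a' b'‖ := norm_sub_le _ _
        _ ≤ ‖x j - x i‖ + ‖x i - lat z₀ θ a b‖ + ‖x j - lat z₀ θ a' b'‖ := by
            gcongr; exact norm_add_le _ _
        _ = _ := by ring
    have h5 : lat z₀ θ a' b' ∈ inner 9 M := by
      have h6 := inner_of_near hab (w' := lat z₀ θ a' b') (r := 4) (by linarith)
      norm_num at h6
      exact h6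
    obtain ⟨j', hj'⟩ := hocc a' b' h5
    have h7 : j' = j := occ_unique hsep hj' h1 (by linarith)
    subst h7
    refine ⟨(a', b'), hj', lat_near ?_ (by linarith)⟩
    intro h8
    rw [Prod.mk.injEq] at h8
    obtain ⟨rfl, rfl⟩ := h8
    exact hji (occ_unique hsep hj' hi (by linarith))
  choose! f hf using key
  have h6 : J.card ≤
      ({(1, 0), (-1, 0), (0, 1), (0, -1), (1, -1), (-1, 1)} : Finset (ℤ × ℤ)).card := by
    refine Finset.card_le_card_of_injOn (fun j => ((f j).1 - a, (f j).2 - b))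
      (fun j hj => (hf j hj).2) ?_
    intro j hj j' hj' hjj
    rw [Prod.mk.injEq] at hjj
    have h8 : f j = f j' := Prod.ext (by linarith [hjj.1]) (by linarith [hjj.2])
    have h9 := (hf j' hj').1
    rw [← h8] at h9
    exact occ_unique hsep (hf j hj).1 h9 (by linarith)
  exact h6.trans (by decide)

lemma dfc_ge [DecidableEq (Fin k)] (hx : x ∈ Gd z₀ θ δ M k) (hδ : δ ≤ 1 / 10) {i : Fin k} {a b : ℤ}
    (hab : lat z₀ θ a b ∈ inner 13 M) (hi : ‖x i - lat z₀ θ a b‖ ≤ δ) :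
    ∑ j with j ≠ i ∧ ‖x j - x i‖ < 2, gap (x j - x i) ≤ dfc x i := by
  have hc := nbr_card hx hδ hab hi
  have h1 : ∑ j ∈ Finset.univ.erase i, phi (al (x j - x i)) =
      ∑ j with j ≠ i ∧ ‖x j - x i‖ < 2, phi (al (x j - x i)) := by
    symm
    refine Finset.sum_subset_zero_on_sdiff ?_ ?_ fun _ _ => rfl
    · intro j hj
      exact Finset.mem_erase.2 ⟨(Finset.mem_filter.1 hj).2.1, Finset.mem_univ _⟩
    · intro j hj
      rw [Finset.mem_sdiff, Finset.mem_erase, Finset.mem_filter] at hj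
      have h2 : 2 ≤ ‖x j - x i‖ := by
        by_contra h
        exact hj.2 ⟨Finset.mem_univ _, hj.1.1, not_le.1 h⟩
      rw [al_eq_zero h2, Pool.Agent.H96.HD.phi_zero]
  have h2 : ∑ j with j ≠ i ∧ ‖x j - x i‖ < 2, phi (al (x j - x i)) =
      (Finset.univ.filter fun j => j ≠ i ∧ ‖x j - x i‖ < 2).card * phi (π / 6) -
        ∑ j with j ≠ i ∧ ‖x j - x i‖ < 2, gap (x j - x i) := by
    rw [← nsmul_eq_mul, ← Finset.sum_const, ← Finset.sum_sub_distrib]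
    refine Finset.sum_congr rfl fun j _ => ?_
    unfold gap
    ring
  have h3 : 0 ≤ phi (π / 6) := phi_nonneg (by positivity)
  have h4 : ((Finset.univ.filter fun j => j ≠ i ∧ ‖x j - x i‖ < 2).card : ℝ) ≤ 6 := by
    exact_mod_cast hc
  unfold dfc
  rw [h1, h2]
  nlinarith

lemma W_ge {n : ℕ} {α : Type} [Fintype α] (f : α × V n ↪ Fin k) (c : α → ℤ × ℤ)
    (hx : x ∈ Gd z₀ θ δ M k) (hδ : δ ≤ 1 / 10)
    (hc : ∀ a q, lat z₀ θ ((c a).1 + ((q : V n).1 : ℕ)) ((c a).2 + (q.2 : ℕ)) ∈ inner 13 M)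
    (hf : ∀ a q, ‖x (f (a, q)) -
      lat z₀ θ ((c a).1 + ((q : V n).1 : ℕ)) ((c a).2 + (q.2 : ℕ))‖ ≤ δ) :
    ∑ a, Gp (fun q => x (f (a, q))) ≤ W (Qd M 0) x := by
  classical
  have hsep := hx.2.1
  have h1 : ∑ a, Gp (fun q => x (f (a, q))) ≤ ∑ a, ∑ q, dfc x (f (a, q)) := by
    refine Finset.sum_le_sum fun a _ => ?_
    unfold Gp
    refine Finset.sum_le_sum fun q _ => ?_
    refine le_trans ?_ (dfc_ge hx hδ (hc a q) (hf a q))
    rw [← Finset.sum_filter]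
    have hinj : ∀ p ∈ (Finset.univ.erase q).filter
        (fun p => ‖x (f (a, p)) - x (f (a, q))‖ < 2), ∀ p' ∈ (Finset.univ.erase q).filter
        (fun p => ‖x (f (a, p)) - x (f (a, q))‖ < 2), f (a, p) = f (a, p') → p = p' := by
      intro p _ p' _ hpp
      exact (Prod.mk.inj (f.injective hpp)).2
    rw [← Finset.sum_image (f := fun j => gap (x j - x (f (a, q)))) hinj]
    refine Finset.sum_le_sum_of_subset_of_nonneg ?_ ?_
    · intro j hj
      obtain ⟨p, hp, rfl⟩ := Finset.mem_image.1 hj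
      obtain ⟨hp1, hp2⟩ := Finset.mem_filter.1 hp
      refine Finset.mem_filter.2 ⟨Finset.mem_univ _, ?_, hp2⟩
      intro h
      exact (Finset.mem_erase.1 hp1).1 (Prod.mk.inj (f.injective h)).2
    · intro j hj _
      exact gap_nonneg (hsep _ _ (Finset.mem_filter.1 hj).2.1)
  refine h1.trans ?_
  rw [← Fintype.sum_prod_type (f := fun r : α × V n => dfc x (f r))]
  have h2 : ∀ r : α × V n, dfc x (f r) =
      (fun i => if closedBall (x i) 2 ⊆ Qd M 0 then dfc x i else 0) (f r) := by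
    rintro ⟨a, q⟩
    simp only
    rw [if_pos]
    intro w hw
    rw [mem_closedBall, dist_eq_norm] at hw
    have h3 := inner_of_near (inner_of_near (hc a q) (hf a q)) hw
    obtain ⟨⟨h4, h5⟩, ⟨h6, h7⟩⟩ := h3
    refine ⟨⟨?_, ?_⟩, ⟨?_, ?_⟩⟩
    · simp only [Complex.zero_re]; linarith
    · simp only [Complex.zero_re]; linarith
    · simp only [Complex.zero_im]; linarith
    · simp only [Complex.zero_im]; linarith
  have h3 : ∑ r : α × V n, dfc x (f r) =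
      ∑ i ∈ Finset.univ.map f, (fun i => if closedBall (x i) 2 ⊆ Qd M 0 then dfc x i else 0) i := by
    rw [Finset.sum_map]
    exact Finset.sum_congr rfl fun r _ => h2 r
  rw [h3]
  unfold W
  refine (Finset.sum_le_sum_of_subset_of_nonneg (Finset.subset_univ _) ?_).trans (le_of_eq ?_)
  · intro i _ _
    split_ifs
    · exact dfc_nonneg hsep i
    · exact le_rfl
  · refine Finset.sum_congr rfl fun i _ => ?_
    congr

end defect

/-! ### integrals -/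

lemma continuous_gap : Continuous gap := by
  unfold gap al phi
  fun_prop

lemma measurable_Gp (n : ℕ) : Measurable (fun y : V n → ℂ => Gp y) := by
  unfold Gp
  refine Finset.measurable_sum _ fun q _ => Finset.measurable_sum _ fun p _ => ?_
  refine Measurable.ite ?_ ?_ measurable_const
  · exact measurableSet_lt (by fun_prop) measurable_const
  · exact continuous_gap.measurable.comp (by fun_prop)

/-- the configurations near a parallelogram -/
def Nr (n : ℕ) (z₀ : ℂ) (θ δ : ℝ) (c : ℤ × ℤ) : Set (V n → ℂ) :=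
  {y | Sep y ∧ ∀ q, ‖y q - lat z₀ θ (c.1 + (q.1 : ℕ)) (c.2 + (q.2 : ℕ))‖ ≤ δ}

lemma measurableSet_Nr (n : ℕ) (z₀ : ℂ) (θ δ : ℝ) (c : ℤ × ℤ) :
    MeasurableSet (Nr n z₀ θ δ c) := by
  have h : Nr n z₀ θ δ c = (⋂ i, ⋂ j, ⋂ (_ : i ≠ j), {y | √3 ≤ ‖y i - y j‖}) ∩
      ⋂ q, {y | ‖y q - lat z₀ θ (c.1 + (q.1 : ℕ)) (c.2 + (q.2 : ℕ))‖ ≤ δ} := by
    ext y
    simp only [Nr, Pool.Agent.H96.CP.Sep, mem_ofPred_eq, mem_inter_iff, mem_iInter]
  rw [h]
  apply IsClosed.measurableSet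
  refine IsClosed.inter ?_ ?_
  · exact isClosed_iInter fun i => isClosed_iInter fun j => isClosed_iInter fun _ =>
      isClosed_le continuous_const (by fun_prop)
  · exact isClosed_iInter fun q => isClosed_le (by fun_prop) continuous_const

/-- the weight of a parallelogram -/
noncomputable def hw (n : ℕ) (z₀ : ℂ) (θ δ s : ℝ) (c : ℤ × ℤ) : (V n → ℂ) → ℝ≥0∞ :=
  (Nr n z₀ θ δ c).indicator fun y => ENNReal.ofReal (Real.exp (-(s * Gp y)))

lemma measurable_hw (n : ℕ) (z₀ : ℂ) (θ δ s : ℝ) (c : ℤ × ℤ) : Measurable (hw n z₀ θ δ s c) := by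
  refine Measurable.indicator ?_ (measurableSet_Nr n z₀ θ δ c)
  exact (Real.measurable_exp.comp ((measurable_Gp n).const_mul s).neg).ennreal_ofReal

lemma measurableSet_Qd (M : ℝ) (z : ℂ) : MeasurableSet (Qd M z) :=
  (Complex.measurable_re measurableSet_Ico).inter (Complex.measurable_im measurableSet_Ico)

lemma volume_Qd_le {M : ℝ} (hM : 0 ≤ M) : volume (Qd M 0) ≤ ENNReal.ofReal (M ^ 2) := by
  have h1 : Qd M 0 ⊆ Pool.Agent.H96.HD.Sq M := by
    rintro w ⟨⟨h1, h2⟩, ⟨h3, h4⟩⟩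
    simp only [Complex.zero_re, Complex.zero_im, zero_add] at h1 h2 h3 h4
    exact ⟨⟨h1, h2.le⟩, ⟨h3, h4.le⟩⟩
  exact (measure_mono h1).trans (Pool.Agent.H96.HD.volume_Sq hM).le

section integral

variable {z₀ : ℂ} {θ δ M s : ℝ} {k n : ℕ}

open Classical in
/-- an injection and its complement -/
noncomputable def eqv {A : Type} (f : A ↪ Fin k) : A ⊕ {i : Fin k // i ∉ range f} ≃ Fin k :=
  (Equiv.sumCongr (Equiv.ofInjective f f.injective) (Equiv.refl _)).trans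
    (Equiv.sumCompl (· ∈ range f))

lemma eqv_inl {A : Type} (f : A ↪ Fin k) (a : A) : eqv f (Sum.inl a) = f a := rfl

lemma eqv_inr {A : Type} (f : A ↪ Fin k) (i : {i : Fin k // i ∉ range f}) :
    eqv f (Sum.inr i) = i := rfl

lemma int_le {α : Type} [Fintype α] (f : α × V n ↪ Fin k) (c : α → ℤ × ℤ) (hs : 0 ≤ s)
    (hM : 0 ≤ M) (hδ : δ ≤ 1 / 10)
    (hc : ∀ a q, lat z₀ θ ((c a).1 + ((q : V n).1 : ℕ)) ((c a).2 + (q.2 : ℕ)) ∈ inner 13 M) :
    ∫⁻ x in {x | x ∈ Gd z₀ θ δ M k ∧ ∀ a q, ‖x (f (a, q)) -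
      lat z₀ θ ((c a).1 + ((q : V n).1 : ℕ)) ((c a).2 + (q.2 : ℕ))‖ ≤ δ},
        ENNReal.ofReal (Real.exp (-(s * W (Qd M 0) x))) ≤
      ENNReal.ofReal (M ^ (2 * (k - Fintype.card α * (n + 1) ^ 2))) *
        ∏ a, ∫⁻ y in Nr n z₀ θ δ (c a), ENNReal.ofReal (Real.exp (-(s * Gp y))) := by
  classical
  set e := eqv f with he
  have hcard : Fintype.card {i : Fin k // i ∉ range f} = k - Fintype.card α * (n + 1) ^ 2 := by
    have h1 := Fintype.card_congr e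
    simp only [Fintype.card_sum, Fintype.card_prod, Fintype.card_fin] at h1
    have h2 : Fintype.card α * ((n + 1) * (n + 1)) = Fintype.card α * (n + 1) ^ 2 := by ring
    omega
  set G : (Fin k → ℂ) → ℝ≥0∞ := fun x =>
    (∏ g : {i : Fin k // i ∉ range f}, (Qd M 0).indicator 1 (x (e (Sum.inr g)))) *
      ∏ a, hw n z₀ θ δ s (c a) (fun q => x (e (Sum.inl (a, q)))) with hG
  have hGm : Measurable G := by
    refine Measurable.mul ?_ ?_
    · refine Finset.measurable_prod _ fun g _ => ?_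
      exact (measurable_one.indicator (measurableSet_Qd M 0)).comp (measurable_pi_apply _)
    · refine Finset.measurable_prod _ fun a _ => ?_
      exact (measurable_hw n z₀ θ δ s (c a)).comp
        (measurable_pi_lambda _ fun q => measurable_pi_apply _)
  have h1 : ∀ x ∈ {x | x ∈ Gd z₀ θ δ M k ∧ ∀ a q, ‖x (f (a, q)) -
      lat z₀ θ ((c a).1 + ((q : V n).1 : ℕ)) ((c a).2 + (q.2 : ℕ))‖ ≤ δ},
      ENNReal.ofReal (Real.exp (-(s * W (Qd M 0) x))) ≤ G x := by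
    rintro x ⟨hx, hf⟩
    have h2 : (∏ g : {i : Fin k // i ∉ range f}, (Qd M 0).indicator (1 : ℂ → ℝ≥0∞)
        (x (e (Sum.inr g)))) = 1 := by
      refine Finset.prod_eq_one fun g _ => ?_
      rw [indicator_of_mem (hx.1 _)]
      rfl
    have h3 : ∀ a, hw n z₀ θ δ s (c a) (fun q => x (e (Sum.inl (a, q)))) =
        ENNReal.ofReal (Real.exp (-(s * Gp (fun q => x (f (a, q)))))) := by
      intro a
      unfold hw
      rw [indicator_of_mem]
      · rfl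
      · refine ⟨fun q q' hqq => ?_, fun q => hf a q⟩
        refine hx.2.1 _ _ fun h => hqq ?_
        rw [he, eqv_inl, eqv_inl] at h
        exact (Prod.mk.inj (f.injective h)).2
    simp only [hG]
    rw [h2, one_mul, Finset.prod_congr rfl fun a _ => h3 a,
      ← ENNReal.ofReal_prod_of_nonneg fun a _ => (Real.exp_pos _).le, ← Real.exp_sum]
    refine ENNReal.ofReal_le_ofReal (Real.exp_le_exp.2 ?_)
    rw [Finset.sum_neg_distrib, ← Finset.mul_sum, neg_le_neg_iff]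
    exact mul_le_mul_of_nonneg_left (W_ge f c hx hδ hc hf) hs
  have h4 : ∫⁻ x, G x = ∫⁻ g : {i : Fin k // i ∉ range f} → ℂ, ∫⁻ w : α → V n → ℂ,
      G (comb e g w) := Pool.Agent.H31.CP.comb_thm α (V n) _ (Fin k) e G hGm
  have h5 : ∀ (g : {i : Fin k // i ∉ range f} → ℂ) (w : α → V n → ℂ), G (comb e g w) =
      (∏ i, (Qd M 0).indicator 1 (g i)) * ∏ a, hw n z₀ θ δ s (c a) (w a) := by
    intro g w
    simp only [hG, comb, Equiv.symm_apply_apply, Sum.elim_inl, Sum.elim_inr]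
  have h6 : ∀ g : {i : Fin k // i ∉ range f} → ℂ, ∫⁻ w : α → V n → ℂ, G (comb e g w) =
      (∏ i, (Qd M 0).indicator 1 (g i)) * ∏ a, ∫⁻ y, hw n z₀ θ δ s (c a) y := by
    intro g
    simp_rw [h5]
    rw [lintegral_const_mul, Pool.Agent.H31.CP.prod_thm α (V n) (fun a => hw n z₀ θ δ s (c a))
      fun a => measurable_hw n z₀ θ δ s (c a)]
    refine Finset.measurable_prod _ fun a _ => ?_
    exact (measurable_hw n z₀ θ δ s (c a)).comp (measurable_pi_apply _)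
  have h7 : ∫⁻ g : {i : Fin k // i ∉ range f} → ℂ, ∏ i, (Qd M 0).indicator 1 (g i) =
      volume (Qd M 0) ^ Fintype.card {i : Fin k // i ∉ range f} := by
    have := Pool.Agent.H31.CP.lintegral_fintype_prod (μ := (volume : Measure ℂ))
      (fun _ : {i : Fin k // i ∉ range f} => (Qd M 0).indicator (1 : ℂ → ℝ≥0∞))
      (fun _ => measurable_one.indicator (measurableSet_Qd M 0))
    refine Eq.trans this ?_
    rw [lintegral_indicator_one (measurableSet_Qd M 0), Finset.prod_const, Finset.card_univ]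
  calc ∫⁻ x in {x | x ∈ Gd z₀ θ δ M k ∧ ∀ a q, ‖x (f (a, q)) -
        lat z₀ θ ((c a).1 + ((q : V n).1 : ℕ)) ((c a).2 + (q.2 : ℕ))‖ ≤ δ},
        ENNReal.ofReal (Real.exp (-(s * W (Qd M 0) x)))
      ≤ ∫⁻ x in {x | x ∈ Gd z₀ θ δ M k ∧ ∀ a q, ‖x (f (a, q)) -
        lat z₀ θ ((c a).1 + ((q : V n).1 : ℕ)) ((c a).2 + (q.2 : ℕ))‖ ≤ δ}, G x :=
        setLIntegral_mono hGm h1
    _ ≤ ∫⁻ x, G x := setLIntegral_le_lintegral _ _
    _ = volume (Qd M 0) ^ (k - Fintype.card α * (n + 1) ^ 2) *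
        ∏ a, ∫⁻ y, hw n z₀ θ δ s (c a) y := by
        rw [h4]
        simp_rw [h6]
        rw [lintegral_mul_const, h7, hcard]
        refine Finset.measurable_prod _ fun i _ => ?_
        exact (measurable_one.indicator (measurableSet_Qd M 0)).comp (measurable_pi_apply _)
    _ ≤ _ := by
        refine mul_le_mul' ?_ (le_of_eq ?_)
        · rw [pow_mul, ENNReal.ofReal_pow (by positivity)]
          gcongr
          exact volume_Qd_le hM
        · refine Finset.prod_congr rfl fun a _ => ?_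
          unfold hw
          rw [lintegral_indicator (measurableSet_Nr n z₀ θ δ (c a))]

end integral

/-! ### the parallelograms -/

section sites

/-- corner of the parallelogram `a` -/
def cor (n : ℕ) (a : ℤ × ℤ) : ℤ × ℤ := (((n : ℤ) + 1) * a.1, ((n : ℤ) + 1) * a.2)

/-- site `q` of the parallelogram `a` -/
noncomputable def site (n : ℕ) (z₀ : ℂ) (θ : ℝ) (a : ℤ × ℤ) (q : V n) : ℂ :=
  lat z₀ θ ((cor n a).1 + (q.1 : ℕ)) ((cor n a).2 + (q.2 : ℕ))

/-- the parallelograms inside -/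
def Ps (n : ℕ) (z₀ : ℂ) (θ M : ℝ) : Set (ℤ × ℤ) := {a | ∀ q : V n, site n z₀ θ a q ∈ inner 13 M}

lemma div_unique {N a a' r r' : ℤ} (h0 : 0 ≤ r) (h1 : r < N) (h0' : 0 ≤ r') (h1' : r' < N)
    (h : N * a + r = N * a' + r') : a = a' ∧ r = r' := by
  have hN : 0 < N := by omega
  have e1 : (N * a + r) / N = a := by
    rw [add_comm, Int.add_mul_ediv_left _ _ hN.ne', Int.ediv_eq_zero_of_lt h0 h1, zero_add]
  have e2 : (N * a' + r') / N = a' := by
    rw [add_comm, Int.add_mul_ediv_left _ _ hN.ne', Int.ediv_eq_zero_of_lt h0' h1', zero_add]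
  have e3 : a = a' := by rw [← e1, ← e2, h]
  subst e3
  exact ⟨rfl, by linarith⟩

lemma site_sep {n : ℕ} {z₀ : ℂ} {θ : ℝ} {a a' : ℤ × ℤ} {q q' : V n} (h : (a, q) ≠ (a', q')) :
    √3 ≤ ‖site n z₀ θ a q - site n z₀ θ a' q'‖ := by
  refine lat_sep fun h1 => h ?_
  obtain ⟨h2, h3⟩ := Prod.mk.inj h1
  have e1 := div_unique (by positivity) (by exact_mod_cast q.1.2) (by positivity)
    (by exact_mod_cast q'.1.2) h2
  have e2 := div_unique (by positivity) (by exact_mod_cast q.2.2) (by positivity)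
    (by exact_mod_cast q'.2.2) h3
  have e3 : q.1 = q'.1 := Fin.ext (by exact_mod_cast e1.2)
  have e4 : q.2 = q'.2 := Fin.ext (by exact_mod_cast e2.2)
  exact Prod.ext (Prod.ext e1.1 e2.1) (Prod.ext e3 e4)

variable {n k : ℕ} {z₀ : ℂ} {θ δ M : ℝ}

lemma exists_emb {x : Fin k → ℂ} (hx : x ∈ Gd z₀ θ δ M k) (hδ : δ ≤ 1 / 10) :
    ∃ f : (Ps n z₀ θ M) × V n ↪ Fin k, ∀ (a : Ps n z₀ θ M) q,
      ‖x (f (a, q)) - site n z₀ θ a q‖ ≤ δ := by
  have h3 := lt_sqrt3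
  have h1 : ∀ r : (Ps n z₀ θ M) × V n, ∃ i, ‖x i - site n z₀ θ r.1 r.2‖ ≤ δ := fun r =>
    hx.2.2 _ _ (inner_mono (by norm_num) (r.1.2 r.2))
  choose f hf using h1
  refine ⟨⟨f, ?_⟩, fun a q => hf (a, q)⟩
  intro r r' hrr
  by_contra hne
  have h4 : ((r.1 : ℤ × ℤ), r.2) ≠ ((r'.1 : ℤ × ℤ), r'.2) := by
    intro h5
    apply hne
    obtain ⟨h6, h7⟩ := Prod.mk.inj h5
    exact Prod.ext (Subtype.ext h6) h7
  have h5 := site_sep (z₀ := z₀) (θ := θ) h4
  have h6 : ‖site n z₀ θ r.1 r.2 - site n z₀ θ r'.1 r'.2‖ ≤ δ + δ := by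
    calc ‖site n z₀ θ r.1 r.2 - site n z₀ θ r'.1 r'.2‖ =
          ‖(x (f r') - site n z₀ θ r'.1 r'.2) - (x (f r) - site n z₀ θ r.1 r.2)‖ := by
            rw [hrr]; congr 1; ring
      _ ≤ ‖x (f r') - site n z₀ θ r'.1 r'.2‖ + ‖x (f r) - site n z₀ θ r.1 r.2‖ := norm_sub_le _ _
      _ ≤ δ + δ := add_le_add (hf r') (hf r)
  linarith

/-- the points which do not belong to a parallelogram are near the boundary -/
lemma not_inner {x : Fin k → ℂ} (hx : x ∈ Gd z₀ θ δ M k) (hδ : δ ≤ 1 / 10)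
    (f : (Ps n z₀ θ M) × V n ↪ Fin k)
    (hf : ∀ (a : Ps n z₀ θ M) q, ‖x (f (a, q)) - site n z₀ θ a q‖ ≤ δ) {i : Fin k}
    (hi : i ∉ range f) : x i ∉ Pool.Agent.H96.CP.inner (18 + 5 * (n : ℝ)) M := by
  intro hin
  apply hi
  have h3 := lt_sqrt3
  have h3' := sqrt3_lt
  have hn0 : (0 : ℝ) ≤ n := Nat.cast_nonneg n
  obtain ⟨a', b', h1⟩ := lat_cover z₀ θ (x i)
  set N : ℤ := (n : ℤ) + 1 with hN
  have hN0 : 0 < N := by omega
  have hr0 := Int.emod_nonneg a' hN0.ne'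
  have hr1 := Int.emod_lt_of_pos a' hN0
  have hs0 := Int.emod_nonneg b' hN0.ne'
  have hs1 := Int.emod_lt_of_pos b' hN0
  have ha := Int.mul_ediv_add_emod a' N
  have hb := Int.mul_ediv_add_emod b' N
  obtain ⟨r, hr⟩ := Int.eq_ofNat_of_zero_le hr0
  obtain ⟨t, ht⟩ := Int.eq_ofNat_of_zero_le hs0
  have hrn : r < n + 1 := by omega
  have htn : t < n + 1 := by omega
  have hsite : site n z₀ θ (a' / N, b' / N) (⟨r, hrn⟩, ⟨t, htn⟩) = lat z₀ θ a' b' := by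
    unfold site cor
    simp only
    congr 1
    · rw [← hr, ← hN]; exact ha
    · rw [← ht, ← hN]; exact hb
  have hmem : (a' / N, b' / N) ∈ Ps n z₀ θ M := by
    intro q
    have h4 : ‖site n z₀ θ (a' / N, b' / N) q - lat z₀ θ a' b'‖ ≤ 3.6 * n := by
      rw [← hsite]
      unfold site
      rw [lat_sub, norm_mul, norm_sqrt3_exp]
      have e1 : |((((cor n (a' / N, b' / N)).1 + ((q.1 : ℕ) : ℤ)) -
          ((cor n (a' / N, b' / N)).1 + (((⟨r, hrn⟩ : Fin (n + 1)) : ℕ) : ℤ)) : ℤ) : ℝ)| ≤ n := by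
        have e3 : ((cor n (a' / N, b' / N)).1 + ((q.1 : ℕ) : ℤ)) -
          ((cor n (a' / N, b' / N)).1 + (((⟨r, hrn⟩ : Fin (n + 1)) : ℕ) : ℤ)) =
            ((q.1 : ℕ) : ℤ) - r := by simp only; ring
        rw [e3]
        have e4 : ((q.1 : ℕ) : ℝ) ≤ n := by exact_mod_cast Nat.le_of_lt_succ q.1.2
        have e5 : (r : ℝ) ≤ n := by exact_mod_cast Nat.le_of_lt_succ hrn
        have e6 : (0 : ℝ) ≤ ((q.1 : ℕ) : ℝ) := Nat.cast_nonneg _
        have e7 : (0 : ℝ) ≤ (r : ℝ) := Nat.cast_nonneg _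
        push_cast
        rw [abs_le]
        constructor <;> linarith
      have e2 : |((((cor n (a' / N, b' / N)).2 + ((q.2 : ℕ) : ℤ)) -
          ((cor n (a' / N, b' / N)).2 + (((⟨t, htn⟩ : Fin (n + 1)) : ℕ) : ℤ)) : ℤ) : ℝ)| ≤ n := by
        have e3 : ((cor n (a' / N, b' / N)).2 + ((q.2 : ℕ) : ℤ)) -
          ((cor n (a' / N, b' / N)).2 + (((⟨t, htn⟩ : Fin (n + 1)) : ℕ) : ℤ)) =
            ((q.2 : ℕ) : ℤ) - t := by simp only; ring
        rw [e3]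
        have e4 : ((q.2 : ℕ) : ℝ) ≤ n := by exact_mod_cast Nat.le_of_lt_succ q.2.2
        have e5 : (t : ℝ) ≤ n := by exact_mod_cast Nat.le_of_lt_succ htn
        have e6 : (0 : ℝ) ≤ ((q.2 : ℕ) : ℝ) := Nat.cast_nonneg _
        have e7 : (0 : ℝ) ≤ (t : ℝ) := Nat.cast_nonneg _
        push_cast
        rw [abs_le]
        constructor <;> linarith
      have e3 : ∀ X Y : ℝ, |X| ≤ n → |Y| ≤ n → √3 * ‖(X : ℂ) + (Y : ℂ) * om‖ ≤ 3.6 * n := by
        intro X Y hX hY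
        have e4 : ‖(X : ℂ) + (Y : ℂ) * om‖ ≤ n + n := by
          refine (norm_add_le _ _).trans ?_
          rw [norm_mul, norm_om, mul_one, Complex.norm_real, Complex.norm_real]
          exact add_le_add hX hY
        nlinarith [norm_nonneg ((X : ℂ) + (Y : ℂ) * om)]
      exact e3 _ _ e1 e2
    have h5 := inner_of_near hin (w' := lat z₀ θ a' b') (r := 1) (by rw [norm_sub_rev]; exact h1)
    have h6 := inner_of_near h5 h4
    exact inner_mono (by linarith) h6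
  refine ⟨(⟨_, hmem⟩, (⟨r, hrn⟩, ⟨t, htn⟩)), ?_⟩
  have h7 := hf ⟨_, hmem⟩ (⟨r, hrn⟩, ⟨t, htn⟩)
  rw [hsite] at h7
  exact occ_unique hx.2.1 h7 h1 (by linarith)

/-- a separated family in the boundary strip -/
lemma card_strip {x : Fin k → ℂ} (hsep : Pool.Agent.H96.CP.Sep x) (hQ : ∀ i, x i ∈ Qd M 0)
    (hM : 0 ≤ M) {c : ℝ} (hc : 0 ≤ c) (J : Finset (Fin k)) (hJ : ∀ i ∈ J, x i ∉ inner c M) :
    (J.card : ℝ) ≤ 4 * (c + 2) * (M + 1) := by
  classical
  set T : Finset (ℤ × ℤ) := ((Finset.Icc 0 ⌊c⌋ ×ˢ Finset.Icc 0 ⌊M⌋) ∪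
    (Finset.Icc ⌊M - c⌋ ⌊M⌋ ×ˢ Finset.Icc 0 ⌊M⌋)) ∪ ((Finset.Icc 0 ⌊M⌋ ×ˢ Finset.Icc 0 ⌊c⌋) ∪
    (Finset.Icc 0 ⌊M⌋ ×ˢ Finset.Icc ⌊M - c⌋ ⌊M⌋)) with hT
  have h1 : J.card ≤ T.card := by
    refine Finset.card_le_card_of_injOn (fun i => (⌊(x i).re⌋, ⌊(x i).im⌋)) ?_ ?_
    · intro i hi
      obtain ⟨⟨h1, h2⟩, ⟨h3, h4⟩⟩ := hQ i
      simp only [Complex.zero_re, Complex.zero_im, zero_add] at h1 h2 h3 h4
      have f1 : 0 ≤ ⌊(x i).re⌋ := Int.floor_nonneg.2 h1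
      have f2 : ⌊(x i).re⌋ ≤ ⌊M⌋ := Int.floor_le_floor h2.le
      have f3 : 0 ≤ ⌊(x i).im⌋ := Int.floor_nonneg.2 h3
      have f4 : ⌊(x i).im⌋ ≤ ⌊M⌋ := Int.floor_le_floor h4.le
      have h5 := hJ i hi
      have h6 : (x i).re < c ∨ M - c < (x i).re ∨ (x i).im < c ∨ M - c < (x i).im := by
        by_contra hcon
        push Not at hcon
        exact h5 ⟨⟨hcon.1, hcon.2.1⟩, ⟨hcon.2.2.1, hcon.2.2.2⟩⟩
      simp only [hT, Finset.coe_union, Finset.coe_product, Finset.coe_Icc, mem_union, mem_prod,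
        mem_Icc]
      rcases h6 with h6 | h6 | h6 | h6
      · exact Or.inl (Or.inl ⟨⟨f1, Int.floor_le_floor h6.le⟩, ⟨f3, f4⟩⟩)
      · exact Or.inl (Or.inr ⟨⟨Int.floor_le_floor h6.le, f2⟩, ⟨f3, f4⟩⟩)
      · exact Or.inr (Or.inl ⟨⟨f1, f2⟩, ⟨f3, Int.floor_le_floor h6.le⟩⟩)
      · exact Or.inr (Or.inr ⟨⟨f1, f2⟩, ⟨Int.floor_le_floor h6.le, f4⟩⟩)
    · intro i _ j _ hij
      by_contra hne
      have h2 := hsep i j hne
      obtain ⟨h3, h4⟩ := Prod.mk.inj hij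
      have h5 : |(x i).re - (x j).re| < 1 := Int.abs_sub_lt_one_of_floor_eq_floor h3
      have h6 : |(x i).im - (x j).im| < 1 := Int.abs_sub_lt_one_of_floor_eq_floor h4
      have h7 : √3 ^ 2 ≤ ‖x i - x j‖ ^ 2 := pow_le_pow_left₀ (Real.sqrt_nonneg 3) h2 2
      rw [Real.sq_sqrt (by norm_num), ← Complex.normSq_eq_norm_sq, Complex.normSq_apply,
        Complex.sub_re, Complex.sub_im] at h7
      have h8 := abs_lt.1 h5
      have h9 := abs_lt.1 h6
      nlinarith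
  have c1 : ((Finset.Icc 0 ⌊c⌋).card : ℝ) ≤ c + 2 := by
    rw [Int.card_Icc]
    have e1 : (0 : ℤ) ≤ ⌊c⌋ := Int.floor_nonneg.2 hc
    have e2 : (((⌊c⌋ + 1 - 0).toNat : ℤ) : ℝ) = ((⌊c⌋ + 1 - 0 : ℤ) : ℝ) := by
      rw [Int.toNat_of_nonneg (by omega)]
    have e3 : (((⌊c⌋ + 1 - 0).toNat : ℕ) : ℝ) = ((⌊c⌋ + 1 - 0 : ℤ) : ℝ) := by
      rw [← e2]; norm_cast
    rw [e3]
    push_cast
    linarith [Int.floor_le c]
  have c2 : ((Finset.Icc 0 ⌊M⌋).card : ℝ) ≤ M + 1 := by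
    rw [Int.card_Icc]
    have e1 : (0 : ℤ) ≤ ⌊M⌋ := Int.floor_nonneg.2 hM
    have e2 : (((⌊M⌋ + 1 - 0).toNat : ℤ) : ℝ) = ((⌊M⌋ + 1 - 0 : ℤ) : ℝ) := by
      rw [Int.toNat_of_nonneg (by omega)]
    have e3 : (((⌊M⌋ + 1 - 0).toNat : ℕ) : ℝ) = ((⌊M⌋ + 1 - 0 : ℤ) : ℝ) := by
      rw [← e2]; norm_cast
    rw [e3]
    push_cast
    linarith [Int.floor_le M]
  have c3 : ((Finset.Icc ⌊M - c⌋ ⌊M⌋).card : ℝ) ≤ c + 2 := by
    rw [Int.card_Icc]
    have e1 : ⌊M - c⌋ ≤ ⌊M⌋ := Int.floor_le_floor (by linarith)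
    have e2 : (((⌊M⌋ + 1 - ⌊M - c⌋).toNat : ℤ) : ℝ) = ((⌊M⌋ + 1 - ⌊M - c⌋ : ℤ) : ℝ) := by
      rw [Int.toNat_of_nonneg (by omega)]
    have e3 : (((⌊M⌋ + 1 - ⌊M - c⌋).toNat : ℕ) : ℝ) = ((⌊M⌋ + 1 - ⌊M - c⌋ : ℤ) : ℝ) := by
      rw [← e2]; norm_cast
    rw [e3]
    push_cast
    linarith [Int.floor_le M, Int.lt_floor_add_one (M - c)]
  have h2 : (T.card : ℝ) ≤ 4 * (c + 2) * (M + 1) := by
    have d1 : T.card ≤ ((Finset.Icc 0 ⌊c⌋).card * (Finset.Icc 0 ⌊M⌋).card +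
        (Finset.Icc ⌊M - c⌋ ⌊M⌋).card * (Finset.Icc 0 ⌊M⌋).card) +
        ((Finset.Icc 0 ⌊M⌋).card * (Finset.Icc 0 ⌊c⌋).card +
        (Finset.Icc 0 ⌊M⌋).card * (Finset.Icc ⌊M - c⌋ ⌊M⌋).card) := by
      refine (Finset.card_union_le _ _).trans (add_le_add ?_ ?_)
      · refine (Finset.card_union_le _ _).trans (le_of_eq ?_)
        rw [Finset.card_product, Finset.card_product]
      · refine (Finset.card_union_le _ _).trans (le_of_eq ?_)
        rw [Finset.card_product, Finset.card_product]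
    have d2 : (T.card : ℝ) ≤ (((Finset.Icc 0 ⌊c⌋).card : ℝ) * (Finset.Icc 0 ⌊M⌋).card +
        ((Finset.Icc ⌊M - c⌋ ⌊M⌋).card : ℝ) * (Finset.Icc 0 ⌊M⌋).card) +
        (((Finset.Icc 0 ⌊M⌋).card : ℝ) * (Finset.Icc 0 ⌊c⌋).card +
        ((Finset.Icc 0 ⌊M⌋).card : ℝ) * (Finset.Icc ⌊M - c⌋ ⌊M⌋).card) := by exact_mod_cast d1
    refine d2.trans ?_
    have g1 := mul_le_mul c1 c2 (Nat.cast_nonneg _) (by linarith)
    have g2 := mul_le_mul c3 c2 (Nat.cast_nonneg _) (by linarith)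
    linarith
  exact le_trans (by exact_mod_cast h1) h2

end sites

theorem fix : S_fix := by
  classical
  refine ⟨100, by norm_num, fun ε hε => ?_⟩
  obtain ⟨δ₀, hδ₀, hnear⟩ := near ε hε
  refine ⟨min δ₀ (1 / 10), by positivity, ?_⟩
  rintro n k s δ θ M z₀ hn hs hδ hδ1 hsδ hnδ hM ⟨x₀, hx₀⟩
  have hδ2 : δ ≤ 1 / 10 := hδ1.trans (min_le_right _ _)
  have hM0 : 0 ≤ M := by linarith
  obtain ⟨f₀, hf₀⟩ := exists_emb (n := n) hx₀ hδ2
  have hfin : Finite (Ps n z₀ θ M) := by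
    refine Finite.of_injective (fun a => f₀ (a, (0, 0))) fun a a' h => ?_
    exact (Prod.mk.inj (f₀.injective h)).1
  have : Fintype (Ps n z₀ θ M) := Fintype.ofFinite _
  set p := Fintype.card (Ps n z₀ θ M) with hp
  have hV : Fintype.card (Ps n z₀ θ M × V n) = p * (n + 1) ^ 2 := by
    simp only [Fintype.card_prod, Fintype.card_fin]
    ring
  have hpk : p * (n + 1) ^ 2 ≤ k := by
    have h1 := Fintype.card_le_of_embedding f₀
    rw [hV, Fintype.card_fin] at h1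
    exact h1
  refine ⟨p, hpk, ?_, ?_⟩
  · -- the number of the remaining points
    set J : Finset (Fin k) := (Finset.univ.map f₀)ᶜ with hJ
    have h1 : J.card = k - p * (n + 1) ^ 2 := by
      rw [hJ, Finset.card_compl, Finset.card_map, Finset.card_univ, hV, Fintype.card_fin]
    have h2 : (J.card : ℝ) ≤ 4 * ((18 + 5 * (n : ℝ)) + 2) * (M + 1) := by
      refine card_strip hx₀.2.1 hx₀.1 hM0 (by positivity) J fun i hi => ?_
      refine not_inner hx₀ hδ2 f₀ hf₀ fun hcon => ?_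
      obtain ⟨r, rfl⟩ := hcon
      rw [hJ, Finset.mem_compl] at hi
      exact hi (Finset.mem_map_of_mem _ (Finset.mem_univ _))
    have h3 : (k : ℝ) = (p * (n + 1) ^ 2 : ℕ) + (J.card : ℝ) := by
      rw [h1, ← Nat.cast_add]
      congr 1
      omega
    rw [h3]
    push_cast
    have hn1 : (1 : ℝ) ≤ n := by exact_mod_cast hn
    nlinarith
  · -- the integral
    set B : ℝ≥0∞ := ENNReal.ofReal (M ^ (2 * (k - p * (n + 1) ^ 2))) *
        (ENNReal.ofReal (Real.exp (ε * (n + 1) ^ 2) * (1 / s) ^ (2 * (n + 1) ^ 2)) *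
          Zf n s) ^ p with hB
    set F : (Fin k → ℂ) → ℝ≥0∞ := fun x => ENNReal.ofReal (Real.exp (-(s * W (Qd M 0) x))) with hF
    set S : (Ps n z₀ θ M × V n ↪ Fin k) → Set (Fin k → ℂ) := fun f =>
      {x | x ∈ Gd z₀ θ δ M k ∧ ∀ (a : Ps n z₀ θ M) (q : V n), ‖x (f (a, q)) -
        lat z₀ θ ((cor n a).1 + (q.1 : ℕ)) ((cor n a).2 + (q.2 : ℕ))‖ ≤ δ} with hS
    have h1 : Gd z₀ θ δ M k ⊆ ⋃ f, S f := by
      intro x hx
      obtain ⟨f, hf⟩ := exists_emb (n := n) hx hδ2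
      exact mem_iUnion.2 ⟨f, hx, hf⟩
    have h2 : ∀ f, ∫⁻ x in S f, F x ≤ B := by
      intro f
      refine (int_le f (fun a => cor n a) (by linarith) hM0 hδ2 fun a q => a.2 q).trans ?_
      rw [hB]
      refine mul_le_mul_right ?_ _
      calc ∏ a : Ps n z₀ θ M, ∫⁻ y in Nr n z₀ θ δ (cor n a),
            ENNReal.ofReal (Real.exp (-(s * Gp y)))
          ≤ ∏ _a : Ps n z₀ θ M, (ENNReal.ofReal (Real.exp (ε * (n + 1) ^ 2) *
              (1 / s) ^ (2 * (n + 1) ^ 2)) * Zf n s) := by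
            refine Finset.prod_le_prod' fun a _ => ?_
            exact hnear n s δ θ z₀ _ _ hn hs hδ (hδ1.trans (min_le_left _ _))
              (hsδ.trans (min_le_left _ _)) hnδ
        _ = _ := by rw [Finset.prod_const, Finset.card_univ]
    have h3 : ∫⁻ x in Gd z₀ θ δ M k, F x ≤ (k ! : ℕ) * B := by
      calc ∫⁻ x in Gd z₀ θ δ M k, F x ≤ ∫⁻ x in ⋃ f, S f, F x := lintegral_mono_set h1
        _ ≤ ∑' f, ∫⁻ x in S f, F x := lintegral_iUnion_le _ _
        _ = ∑ f, ∫⁻ x in S f, F x := tsum_fintype _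
        _ ≤ ∑ _f : (Ps n z₀ θ M × V n ↪ Fin k), B := Finset.sum_le_sum fun f _ => h2 f
        _ = (Fintype.card (Ps n z₀ θ M × V n ↪ Fin k) : ℝ≥0∞) * B := by
          rw [Finset.sum_const, Finset.card_univ, nsmul_eq_mul]
        _ ≤ (k ! : ℕ) * B := by
          refine mul_le_mul_left ?_ _
          rw [Fintype.card_embedding_eq, hV, Fintype.card_fin]
          have h4 := Nat.factorial_mul_descFactorial hpk
          have h5 : k.descFactorial (p * (n + 1) ^ 2) ≤ k ! := by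
            rw [← h4]
            exact Nat.le_mul_of_pos_left _ (Nat.factorial_pos _)
          exact_mod_cast h5
    calc ((k ! : ℕ) : ℝ≥0∞)⁻¹ * ∫⁻ x in Gd z₀ θ δ M k, F x
        ≤ ((k ! : ℕ) : ℝ≥0∞)⁻¹ * ((k ! : ℕ) * B) := mul_le_mul_right h3 _
      _ = B := by
        rw [← mul_assoc, ENNReal.inv_mul_cancel, one_mul]
        · exact_mod_cast (Nat.factorial_pos k).ne'
        · exact ENNReal.natCast_ne_top _

end Pool.Agent.H61.CP
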