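import Pool.Agent.H96.CP.Stm7

set_option autoImplicit false

open Real Set MeasureTheory Metric Filter Topology
open scoped ENNReal Nat ComplexConjugate

namespace Pool.Agent.H96.CP

theorem vol_equiv (a L : ℝ) (ι κ : Type) [Fintype ι] [Fintype κ] (e : ι ≃ κ) :
    volume (CC a L ι) = volume (CC a L κ) := by
  have hp := volume_measurePreserving_piCongrLeft (fun _ : κ => ℂ) e
  rw [← hp.measure_preimage_equiv]
  congr 1
  ext x
  simp only [CC, mem_preimage, mem_ofPred_eq]
  have hx : ∀ i, (MeasurableEquiv.piCongrLeft (fun _ : κ => ℂ) e x) i = x (e.symm i) := by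
    intro i
    rw [MeasurableEquiv.coe_piCongrLeft]
    have := Equiv.piCongrLeft_apply_apply (fun _ : κ => ℂ) e x (e.symm i)
    rwa [e.apply_symm_apply] at this
  constructor
  · rintro ⟨h1, h2⟩
    refine ⟨fun i => ?_, fun i j hij => ?_⟩
    · rw [hx]; exact h1 _
    · rw [hx, hx]; exact h2 _ _ (fun h => hij (e.symm.injective h))
  · rintro ⟨h1, h2⟩
    refine ⟨fun i => ?_, fun i j hij => ?_⟩
    · have := h1 (e i)
      rwa [hx, e.symm_apply_apply] at this
    · have := h2 (e i) (e j) (fun h => hij (e.injective h))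
      rwa [hx, hx, e.symm_apply_apply, e.symm_apply_apply] at this

theorem hole : S_hole := by
  intro a L N m
  rw [← vol_equiv a L (Fin N ⊕ Fin m) (Fin (N + m)) finSumFinEquiv]
  have hp := volume_measurePreserving_sumPiEquivProdPi (fun _ : Fin N ⊕ Fin m => ℂ)
  rw [← hp.measure_preimage_equiv]
  congr 1
  ext x
  simp only [CC, mem_preimage, mem_ofPred_eq]
  have hx1 : ∀ i, (MeasurableEquiv.sumPiEquivProdPi (fun _ : Fin N ⊕ Fin m => ℂ) x).1 i = x (Sum.inl i) :=
    fun i => rfl
  have hx2 : ∀ i, (MeasurableEquiv.sumPiEquivProdPi (fun _ : Fin N ⊕ Fin m => ℂ) x).2 i = x (Sum.inr i) :=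
    fun i => rfl
  simp only [hx1, hx2]
  constructor
  · rintro ⟨⟨h1, h2⟩, ⟨h3, h4⟩, h5⟩
    refine ⟨?_, ?_⟩
    · rintro (i | i)
      · exact h1 i
      · exact h3 i
    · rintro (i | i) (j | j) hij
      · exact h2 i j (fun h => hij (by rw [h]))
      · rw [norm_sub_rev]; exact h5 i j
      · exact h5 j i
      · exact h4 i j (fun h => hij (by rw [h]))
  · rintro ⟨h1, h2⟩
    refine ⟨⟨fun i => h1 _, fun i j hij => h2 _ _ (fun h => hij (Sum.inl_injective h))⟩,
      ⟨fun i => h1 _, fun i j hij => h2 _ _ (fun h => hij (Sum.inr_injective h))⟩,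
      fun i j => h2 _ _ (by simp)⟩

end Pool.Agent.H96.CP
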