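import Pool.Agent.H96.CP.Stm
import Pool.Graph.R_seed8.H212R2.KLS.T1

/-! Project CP (helper96), module S_mean: log-concavity of the block volume. -/

set_option autoImplicit false

open Real Set MeasureTheory Metric Filter Topology
open scoped ENNReal Nat ComplexConjugate

namespace Pool.Agent.H61.CP

open Pool.Agent.H96.CP

/-- real combination -/
noncomputable def cmb (s t : ℝ) (u v : ℕ → ℕ → ℂ) : ℕ → ℕ → ℂ :=
  fun i j => (s : ℂ) * u i j + (t : ℂ) * v i j

lemma D0_cmb (s t : ℝ) (u v : ℕ → ℕ → ℂ) (i j : ℕ) :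
    D0 (cmb s t u v) i j = s * D0 u i j + t * D0 v i j := by
  simp only [D0, cmb, Complex.sub_re, Complex.add_re, Complex.re_ofReal_mul]
  ring

lemma D1_cmb (s t : ℝ) (u v : ℕ → ℕ → ℂ) (i j : ℕ) :
    D1 (cmb s t u v) i j = s * D1 u i j + t * D1 v i j := by
  have h : conj om * (cmb s t u v i (j + 1) - cmb s t u v i j) =
      (s : ℂ) * (conj om * (u i (j + 1) - u i j)) + (t : ℂ) * (conj om * (v i (j + 1) - v i j)) := by
    simp only [cmb]; ring
  simp only [D1]
  rw [h, Complex.add_re, Complex.re_ofReal_mul, Complex.re_ofReal_mul]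

lemma D2_cmb (s t : ℝ) (u v : ℕ → ℕ → ℂ) (i j : ℕ) :
    D2 (cmb s t u v) i j = s * D2 u i j + t * D2 v i j := by
  have h : conj (om - 1) * (cmb s t u v i (j + 1) - cmb s t u v (i + 1) j) =
      (s : ℂ) * (conj (om - 1) * (u i (j + 1) - u (i + 1) j)) +
        (t : ℂ) * (conj (om - 1) * (v i (j + 1) - v (i + 1) j)) := by
    simp only [cmb]; ring
  simp only [D2]
  rw [h, Complex.add_re, Complex.re_ofReal_mul, Complex.re_ofReal_mul]

lemma Pos_cmb {n : ℕ} {s t : ℝ} (hs : 0 ≤ s) (ht : 0 ≤ t) {u v : ℕ → ℕ → ℂ} (hu : Pos n u)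
    (hv : Pos n v) : Pos n (cmb s t u v) := by
  refine ⟨fun i j hi hj => ?_, fun i j hi hj => ?_, fun i j hi hj => ?_⟩
  · rw [D0_cmb]
    exact add_nonneg (mul_nonneg hs (hu.1 i j hi hj)) (mul_nonneg ht (hv.1 i j hi hj))
  · rw [D1_cmb]
    exact add_nonneg (mul_nonneg hs (hu.2.1 i j hi hj)) (mul_nonneg ht (hv.2.1 i j hi hj))
  · rw [D2_cmb]
    exact add_nonneg (mul_nonneg hs (hu.2.2 i j hi hj)) (mul_nonneg ht (hv.2.2 i j hi hj))

lemma glue_cmb (m : ℕ) (s t : ℝ) (b c : ℕ → ℕ → ℂ) (x y : Fin m × Fin m → ℂ) :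
    glue m (cmb s t b c) (s • x + t • y) = cmb s t (glue m b x) (glue m c y) := by
  funext i j
  unfold cmb glue
  split_ifs with h
  · simp [Pi.add_apply, Pi.smul_apply]
  · rfl

lemma continuous_glue (m : ℕ) (b : ℕ → ℕ → ℂ) (i j : ℕ) :
    Continuous (fun w : Fin m × Fin m → ℂ => glue m b w i j) := by
  unfold glue
  split_ifs with h
  · exact continuous_apply _
  · exact continuous_const

lemma isClosed_Kb (m : ℕ) (b : ℕ → ℕ → ℂ) : IsClosed (Kb m b) := by
  have h : Kb m b = (⋂ i, ⋂ j, ⋂ (_ : i < m + 1), ⋂ (_ : j ≤ m + 1),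
      {w | 0 ≤ D0 (glue m b w) i j}) ∩ ((⋂ i, ⋂ j, ⋂ (_ : i ≤ m + 1), ⋂ (_ : j < m + 1),
      {w | 0 ≤ D1 (glue m b w) i j}) ∩ (⋂ i, ⋂ j, ⋂ (_ : i < m + 1), ⋂ (_ : j < m + 1),
      {w | 0 ≤ D2 (glue m b w) i j})) := by
    ext w
    simp only [Kb, Pos, mem_ofPred_eq, mem_inter_iff, mem_iInter]
  rw [h]
  refine IsClosed.inter ?_ (IsClosed.inter ?_ ?_)
  · refine isClosed_iInter fun i => isClosed_iInter fun j => isClosed_iInter fun _ =>
      isClosed_iInter fun _ => isClosed_le continuous_const ?_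
    exact Complex.continuous_re.comp ((continuous_glue m b _ _).sub (continuous_glue m b _ _))
  · refine isClosed_iInter fun i => isClosed_iInter fun j => isClosed_iInter fun _ =>
      isClosed_iInter fun _ => isClosed_le continuous_const ?_
    exact Complex.continuous_re.comp (continuous_const.mul
      ((continuous_glue m b _ _).sub (continuous_glue m b _ _)))
  · refine isClosed_iInter fun i => isClosed_iInter fun j => isClosed_iInter fun _ =>
      isClosed_iInter fun _ => isClosed_le continuous_const ?_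
    exact Complex.continuous_re.comp (continuous_const.mul
      ((continuous_glue m b _ _).sub (continuous_glue m b _ _)))

/-- two boundary values -/
lemma vb_cmb (m : ℕ) (t : ℝ) (ht0 : 0 < t) (ht1 : t < 1) (b c : ℕ → ℕ → ℂ) :
    vb m b ^ (1 - t) * vb m c ^ t ≤ vb m (cmb (1 - t) t b c) := by
  have h := Pool.Agent.H212R2.KLS.PL (volume : Measure (Fin m × Fin m → ℂ)) t ht0 ht1
    ((Kb m b).indicator 1) ((Kb m c).indicator 1) ((Kb m (cmb (1 - t) t b c)).indicator 1)
    (measurable_one.indicator (isClosed_Kb m b).measurableSet)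
    (measurable_one.indicator (isClosed_Kb m c).measurableSet)
    (measurable_one.indicator (isClosed_Kb m _).measurableSet) ?_
  · rw [lintegral_indicator_one (isClosed_Kb m b).measurableSet,
      lintegral_indicator_one (isClosed_Kb m c).measurableSet,
      lintegral_indicator_one (isClosed_Kb m _).measurableSet] at h
    exact h
  · intro x y
    by_cases hx : x ∈ Kb m b
    · by_cases hy : y ∈ Kb m c
      · have hxy : (1 - t) • x + t • y ∈ Kb m (cmb (1 - t) t b c) := by
          show Pos (m + 1) (glue m (cmb (1 - t) t b c) ((1 - t) • x + t • y))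
          rw [glue_cmb]
          exact Pos_cmb (by linarith) ht0.le hx hy
        rw [indicator_of_mem hx, indicator_of_mem hy, indicator_of_mem hxy]
        simp
      · rw [indicator_of_notMem hy, ENNReal.zero_rpow_of_pos ht0, mul_zero]
        exact zero_le
    · rw [indicator_of_notMem hx, ENNReal.zero_rpow_of_pos (by linarith), zero_mul]
      exact zero_le

theorem mean : S_mean := by
  classical
  intro m ι T b hT
  induction hT using Finset.Nonempty.cons_induction with
  | singleton a => simp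
  | cons a T ha hT ih =>
    rw [Finset.prod_cons, Finset.card_cons]
    set k := T.card with hk
    have hk0 : 0 < k := Finset.card_pos.2 hT
    have hk1 : (0 : ℝ) < k := by exact_mod_cast hk0
    set t : ℝ := 1 / ((k : ℝ) + 1) with ht
    have ht0 : 0 < t := by positivity
    have ht1 : t < 1 := by
      rw [ht, div_lt_one (by positivity)]
      linarith
    have h1 : (1 - t) * ((k : ℝ) + 1) = k := by
      rw [ht]; field_simp; ring
    have h2 : t * ((k : ℝ) + 1) = 1 := by
      rw [ht]; field_simp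
    have hmean : (fun i j => (((k + 1 : ℕ) : ℂ))⁻¹ * ∑ t ∈ Finset.cons a T ha, b t i j) =
        cmb (1 - t) t (fun i j => ((k : ℂ))⁻¹ * ∑ t ∈ T, b t i j) (b a) := by
      funext i j
      have hkc : (k : ℂ) ≠ 0 := by exact_mod_cast hk0.ne'
      have hkc1 : (k : ℂ) + 1 ≠ 0 := by exact_mod_cast (Nat.succ_ne_zero k)
      have h3 : ((1 - t : ℝ) : ℂ) = (k : ℂ) / ((k : ℂ) + 1) := by
        rw [ht]; push_cast; field_simp; ring
      have h4 : ((t : ℝ) : ℂ) = 1 / ((k : ℂ) + 1) := by
        rw [ht]; push_cast; rfl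
      unfold cmb
      rw [h3, h4, Finset.sum_cons]
      push_cast
      field_simp
      ring
    rw [hmean]
    set B : ℕ → ℕ → ℂ := fun i j => ((k : ℂ))⁻¹ * ∑ t ∈ T, b t i j with hB
    have h5 := vb_cmb m t ht0 ht1 B (b a)
    have h6 : (vb m B ^ (1 - t) * vb m (b a) ^ t) ^ (k + 1) = vb m (b a) * vb m B ^ k := by
      rw [← ENNReal.rpow_natCast, ENNReal.mul_rpow_of_nonneg _ _ (by positivity),
        ← ENNReal.rpow_mul, ← ENNReal.rpow_mul]
      push_cast
      rw [h1, h2, ENNReal.rpow_one, ENNReal.rpow_natCast, mul_comm]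
    calc vb m (b a) * ∏ t ∈ T, vb m (b t) ≤ vb m (b a) * vb m B ^ k :=
          mul_le_mul_right ih _
      _ = (vb m B ^ (1 - t) * vb m (b a) ^ t) ^ (k + 1) := h6.symm
      _ ≤ _ := by gcongr

end Pool.Agent.H61.CP
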