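import Pool.Agent.H96.CP.Stm

/-! Project CP (helper96), module S_near: configurations near a lattice parallelogram. -/

set_option autoImplicit false

open Real Set MeasureTheory Metric Filter Topology
open scoped ENNReal Nat ComplexConjugate

namespace Pool.Agent.H61.CP

open Pool.Agent.H96.CP
open Pool.Agent.H96.HD (phi al hasDerivAt_phi al_le al_neg)

lemma phi_mono : Monotone phi :=
  monotone_of_deriv_nonneg (fun x => (hasDerivAt_phi x).differentiableAt) (fun x => by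
    rw [(hasDerivAt_phi x).deriv]; positivity)

lemma gap_nonneg {z : ℂ} (h : √3 ≤ ‖z‖) : 0 ≤ gap z := sub_nonneg.2 (phi_mono (al_le h))

lemma gap_neg (z : ℂ) : gap (-z) = gap z := by unfold gap; rw [al_neg]

lemma arccos_sqrt3 : arccos (√3 / 2) = π / 6 := by
  rw [← cos_pi_div_six, arccos_cos (by positivity) (by linarith [pi_pos])]

lemma sqrt3_lt : √3 < 1.8 := by
  rw [Real.sqrt_lt' (by norm_num)]; norm_num

lemma lt_sqrt3 : 1.7 < √3 := by
  rw [Real.lt_sqrt (by norm_num)]; norm_num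

lemma gap_ge {κ : ℝ} (hκ : κ < 1) : ∃ δ : ℝ, 0 < δ ∧ ∀ z : ℂ, √3 ≤ ‖z‖ → ‖z‖ ≤ √3 + δ →
    κ * (‖z‖ - √3) / 2 ≤ gap z := by
  have h3 := sqrt3_lt
  have h3' := lt_sqrt3
  have hc : Continuous (fun x : ℝ => √(1 - (x / 2) ^ 2)) := by fun_prop
  have h0 : √(1 - (√3 / 2) ^ 2) = 1 / 2 := by
    rw [div_pow, Real.sq_sqrt (by norm_num)]
    rw [show (1 : ℝ) - 3 / 2 ^ 2 = (1 / 2) ^ 2 by norm_num, Real.sqrt_sq (by norm_num)]
  have h1 : ∀ᶠ x in 𝓝 √3, κ / 2 < √(1 - (x / 2) ^ 2) := by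
    refine (hc.tendsto √3).eventually (lt_mem_nhds ?_)
    rw [h0]; linarith
  obtain ⟨η, hη, h2⟩ := Metric.eventually_nhds_iff.1 h1
  refine ⟨min (η / 2) (1 / 10), by positivity, fun z hz1 hz2 => ?_⟩
  set δ := min (η / 2) (1 / 10) with hδ
  have hδ1 : δ ≤ η / 2 := min_le_left _ _
  have hδ2 : δ ≤ 1 / 10 := min_le_right _ _
  have hder : ∀ x : ℝ, √3 ≤ x → x ≤ √3 + δ → HasDerivAt (fun x => phi (arccos (x / 2)) + κ / 2 * x)
      (- √(1 - (x / 2) ^ 2) + κ / 2) x := by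
    intro x hx1 hx2
    have hx3 : x / 2 < 1 := by linarith
    have hx4 : 0 < x / 2 := by linarith
    have hpos : 0 < 1 - (x / 2) ^ 2 := by nlinarith
    have hsq := Real.sqrt_pos.2 hpos
    have e1 : HasDerivAt (fun x : ℝ => x / 2) (1 / 2) x := (hasDerivAt_id x).div_const 2
    have e2 := (Real.hasDerivAt_arccos (x := x / 2) (by linarith) (by linarith)).comp x e1
    have e3 := (hasDerivAt_phi (arccos (x / 2))).comp x e2
    have e4 : HasDerivAt (fun x : ℝ => κ / 2 * x) (κ / 2) x := by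
      simpa using (hasDerivAt_id x).const_mul (κ / 2)
    refine (e3.add e4).congr_deriv ?_
    rw [Real.sin_arccos]
    have e5 : √(1 - (x / 2) ^ 2) ^ 2 = 1 - (x / 2) ^ 2 := Real.sq_sqrt hpos.le
    field_simp
  have hanti : AntitoneOn (fun x => phi (arccos (x / 2)) + κ / 2 * x) (Icc √3 (√3 + δ)) := by
    refine antitoneOn_of_deriv_nonpos (convex_Icc _ _)
      (fun x hx => (hder x hx.1 hx.2).continuousAt.continuousWithinAt) ?_ ?_
    · rw [interior_Icc]
      exact fun x hx => (hder x hx.1.le hx.2.le).differentiableAt.differentiableWithinAt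
    · rw [interior_Icc]
      intro x hx
      rw [(hder x hx.1.le hx.2.le).deriv]
      have h4 : κ / 2 < √(1 - (x / 2) ^ 2) := by
        apply h2
        rw [Real.dist_eq, abs_of_pos (by linarith [hx.1])]
        linarith [hx.2]
      linarith
  have h5 := hanti ⟨le_rfl, by linarith⟩ ⟨hz1, hz2⟩ hz1
  simp only at h5
  rw [arccos_sqrt3] at h5
  unfold gap al
  linarith

/-! ### the edges -/

/-- the vertices -/
abbrev V (n : ℕ) := Fin (n + 1) × Fin (n + 1)

/-- the edges -/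
abbrev Ed (n : ℕ) := (Fin n × Fin (n + 1)) ⊕ ((Fin (n + 1) × Fin n) ⊕ (Fin n × Fin n))

/-- start point -/
def src (n : ℕ) : Ed n → V n
  | .inl e => (e.1.castSucc, e.2)
  | .inr (.inl e) => (e.1, e.2.castSucc)
  | .inr (.inr e) => (e.1.succ, e.2.castSucc)

/-- end point -/
def tgt (n : ℕ) : Ed n → V n
  | .inl e => (e.1.succ, e.2)
  | .inr (.inl e) => (e.1, e.2.succ)
  | .inr (.inr e) => (e.1.castSucc, e.2.succ)

/-- direction -/
noncomputable def dir (n : ℕ) : Ed n → ℂ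
  | .inl _ => 1
  | .inr (.inl _) => om
  | .inr (.inr _) => om - 1

/-- elongation -/
noncomputable def De (n : ℕ) (u : V n → ℂ) (e : Ed n) : ℝ :=
  (conj (dir n e) * (u (tgt n e) - u (src n e))).re

/-- ordered edges -/
def pr (n : ℕ) (e : Bool × Ed n) : V n × V n :=
  if e.1 then (src n e.2, tgt n e.2) else (tgt n e.2, src n e.2)

lemma pr_injective (n : ℕ) : Function.Injective (pr n) := by
  rintro ⟨b, e⟩ ⟨b', e'⟩ h
  rcases b <;> rcases b' <;> rcases e with ⟨i, j⟩ | ⟨⟨i, j⟩ | ⟨i, j⟩⟩ <;>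
    rcases e' with ⟨i', j'⟩ | ⟨⟨i', j'⟩ | ⟨i', j'⟩⟩ <;>
    simp [pr, src, tgt, Prod.ext_iff, Fin.ext_iff] at h ⊢ <;> omega

lemma src_ne_tgt (n : ℕ) (e : Ed n) : src n e ≠ tgt n e := by
  rcases e with ⟨i, j⟩ | ⟨⟨i, j⟩ | ⟨i, j⟩⟩ <;> simp [src, tgt, Prod.ext_iff, Fin.ext_iff]

lemma pr_ne (n : ℕ) (e : Bool × Ed n) : (pr n e).1 ≠ (pr n e).2 := by
  unfold pr
  split_ifs
  · exact src_ne_tgt n _
  · exact (src_ne_tgt n _).symm

lemma ext_eq (n : ℕ) (u : V n → ℂ) (i j : Fin (n + 1)) : ext n u i j = u (i, j) := by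
  unfold Pool.Agent.H96.CP.ext
  rw [dif_pos ⟨Nat.le_of_lt_succ i.2, Nat.le_of_lt_succ j.2⟩]

lemma D0_ext (n : ℕ) (u : V n → ℂ) (i : Fin n) (j : Fin (n + 1)) :
    D0 (ext n u) i j = De n u (.inl (i, j)) := by
  have h1 := ext_eq n u i.castSucc j
  have h2 := ext_eq n u i.succ j
  simp only [Fin.val_castSucc, Fin.val_succ] at h1 h2
  simp only [D0, De, dir, src, tgt, h1, h2, map_one, one_mul]

lemma D1_ext (n : ℕ) (u : V n → ℂ) (i : Fin (n + 1)) (j : Fin n) :
    D1 (ext n u) i j = De n u (.inr (.inl (i, j))) := by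
  have h1 := ext_eq n u i j.castSucc
  have h2 := ext_eq n u i j.succ
  simp only [Fin.val_castSucc, Fin.val_succ] at h1 h2
  simp only [D1, De, dir, src, tgt, h1, h2]

lemma D2_ext (n : ℕ) (u : V n → ℂ) (i : Fin n) (j : Fin n) :
    D2 (ext n u) i j = De n u (.inr (.inr (i, j))) := by
  have h1 := ext_eq n u i.succ j.castSucc
  have h2 := ext_eq n u i.castSucc j.succ
  simp only [Fin.val_castSucc, Fin.val_succ] at h1 h2
  simp only [D2, De, dir, src, tgt, h1, h2]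

lemma A_eq (n : ℕ) (u : V n → ℂ) : A n (ext n u) = ∑ e, De n u e := by
  rw [Fintype.sum_sum_type, Fintype.sum_sum_type, Fintype.sum_prod_type, Fintype.sum_prod_type,
    Fintype.sum_prod_type]
  unfold A
  simp only [Finset.sum_range]
  rw [add_assoc]
  congr 1
  · exact Finset.sum_congr rfl fun i _ => Finset.sum_congr rfl fun j _ => D0_ext n u i j
  · congr 1
    · exact Finset.sum_congr rfl fun i _ => Finset.sum_congr rfl fun j _ => D1_ext n u i j
    · exact Finset.sum_congr rfl fun i _ => Finset.sum_congr rfl fun j _ => D2_ext n u i j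

lemma Pos_iff (n : ℕ) (u : V n → ℂ) : Pos n (ext n u) ↔ ∀ e, 0 ≤ De n u e := by
  constructor
  · rintro ⟨h0, h1, h2⟩ (⟨i, j⟩ | ⟨⟨i, j⟩ | ⟨i, j⟩⟩)
    · rw [← D0_ext]; exact h0 i j i.2 (Nat.le_of_lt_succ j.2)
    · rw [← D1_ext]; exact h1 i j (Nat.le_of_lt_succ i.2) j.2
    · rw [← D2_ext]; exact h2 i j i.2 j.2
  · intro h
    refine ⟨fun i j hi hj => ?_, fun i j hi hj => ?_, fun i j hi hj => ?_⟩
    · exact (D0_ext n u ⟨i, hi⟩ ⟨j, Nat.lt_succ_of_le hj⟩).symm ▸ h _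
    · exact (D1_ext n u ⟨i, Nat.lt_succ_of_le hi⟩ ⟨j, hj⟩).symm ▸ h _
    · exact (D2_ext n u ⟨i, hi⟩ ⟨j, hj⟩).symm ▸ h _

lemma card_Ed (n : ℕ) : (Fintype.card (Ed n) : ℝ) ≤ 3 * ((n : ℝ) + 1) ^ 2 := by
  simp only [Fintype.card_sum, Fintype.card_prod, Fintype.card_fin]
  push_cast
  nlinarith [Nat.cast_nonneg (α := ℝ) n]

/-! ### the sum of the gaps -/

lemma Gp_ge {n : ℕ} {y : V n → ℂ} (hy : Sep y) (h2 : ∀ e, ‖y (tgt n e) - y (src n e)‖ < 2) :
    ∑ e, 2 * gap (y (tgt n e) - y (src n e)) ≤ Gp y := by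
  set G : V n × V n → ℝ := fun x =>
    if x.1 ≠ x.2 ∧ ‖y x.2 - y x.1‖ < 2 then gap (y x.2 - y x.1) else 0 with hG
  have hG0 : ∀ x, 0 ≤ G x := by
    intro x
    simp only [hG]
    split_ifs with h
    · exact gap_nonneg (hy _ _ h.1.symm)
    · exact le_rfl
  have h1 : Gp y = ∑ x, G x := by
    rw [Fintype.sum_prod_type]
    unfold Gp
    refine Finset.sum_congr rfl fun q _ => ?_
    rw [← Finset.sum_erase (s := Finset.univ) (a := q)]
    · refine Finset.sum_congr rfl fun p hp => ?_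
      have hpq : q ≠ p := (Finset.mem_erase.1 hp).1.symm
      simp only [hG]
      by_cases h3 : ‖y p - y q‖ < 2
      · rw [if_pos h3, if_pos ⟨hpq, h3⟩]
      · rw [if_neg h3, if_neg fun h => h3 h.2]
    · simp only [hG]
      rw [if_neg fun h => h.1 rfl]
  have h3 : ∑ e : Bool × Ed n, G (pr n e) ≤ ∑ x, G x := by
    rw [← Finset.sum_image (g := pr n) (f := G) fun _ _ _ _ h => pr_injective n h]
    exact Finset.sum_le_sum_of_subset_of_nonneg (Finset.subset_univ _) fun x _ _ => hG0 x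
  rw [h1]
  refine le_trans (le_of_eq ?_) h3
  rw [Fintype.sum_prod_type, Fintype.sum_bool, ← Finset.sum_add_distrib]
  refine Finset.sum_congr rfl fun e _ => ?_
  have e1 : G (pr n (true, e)) = gap (y (tgt n e) - y (src n e)) := by
    simp only [hG, pr, if_true]
    rw [if_pos ⟨src_ne_tgt n e, h2 e⟩]
  have e2 : G (pr n (false, e)) = gap (y (tgt n e) - y (src n e)) := by
    have h4 : y (src n e) - y (tgt n e) = -(y (tgt n e) - y (src n e)) := by ring
    simp only [hG, pr, Bool.false_eq_true, if_false]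
    rw [h4, norm_neg, gap_neg, if_pos ⟨(src_ne_tgt n e).symm, h2 e⟩]
  rw [e1, e2]
  ring

/-! ### one edge -/

lemma norm_om : ‖om‖ = 1 := by
  rw [Complex.norm_eq_sqrt_sq_add_sq]
  simp only [om]
  rw [div_pow, div_pow, Real.sq_sqrt (by norm_num)]
  norm_num

lemma norm_om1 : ‖om - 1‖ = 1 := by
  rw [Complex.norm_eq_sqrt_sq_add_sq]
  simp only [om, Complex.sub_re, Complex.sub_im, Complex.one_re, Complex.one_im, sub_zero]
  rw [div_pow √3, Real.sq_sqrt (by norm_num)]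
  norm_num

lemma norm_dir (n : ℕ) (e : Ed n) : ‖dir n e‖ = 1 := by
  rcases e with ⟨i, j⟩ | ⟨⟨i, j⟩ | ⟨i, j⟩⟩
  · simp [dir]
  · exact norm_om
  · exact norm_om1

lemma conj_mul_self {d : ℂ} (hd : ‖d‖ = 1) : conj d * d = 1 := by
  rw [← Complex.normSq_eq_conj_mul_self, Complex.normSq_eq_norm_sq, hd]
  norm_num

/-- elongation of one edge -/
lemma edge {d w : ℂ} (hd : ‖d‖ = 1) {δ : ℝ} (hw : ‖w‖ ≤ 2 * δ) (hδ : δ ≤ 1 / 10)
    (h3 : √3 ≤ ‖(√3 : ℝ) * d + w‖) :
    -(2 * δ ^ 2) ≤ (conj d * w).re ∧ (conj d * w).re ≤ ‖(√3 : ℝ) * d + w‖ - √3 ∧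
      ‖(√3 : ℝ) * d + w‖ ≤ √3 + 2 * δ := by
  have hs := lt_sqrt3
  have hs' := sqrt3_lt
  have h1 : ‖(√3 : ℝ) * d + w‖ = ‖(√3 : ℝ) + conj d * w‖ := by
    have h2 : conj d * ((√3 : ℝ) * d + w) = (√3 : ℝ) + conj d * w := by
      rw [mul_add, mul_left_comm, conj_mul_self hd, mul_one]
    rw [← h2, norm_mul, Complex.norm_conj, hd, one_mul]
  have h4 : ‖conj d * w‖ ≤ 2 * δ := by
    rw [norm_mul, Complex.norm_conj, hd, one_mul]; exact hw
  set v := conj d * w with hv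
  have hre := (Complex.abs_re_le_norm v).trans h4
  have him := (Complex.abs_im_le_norm v).trans h4
  have hre' := abs_le.1 hre
  have him' := abs_le.1 him
  have hδ0 : 0 ≤ δ := by linarith [norm_nonneg v]
  refine ⟨?_, ?_, ?_⟩
  · have h5 : √3 ^ 2 ≤ ‖(√3 : ℝ) + v‖ ^ 2 := by
      rw [← h1]
      exact pow_le_pow_left₀ (Real.sqrt_nonneg 3) h3 2
    rw [← Complex.normSq_eq_norm_sq, Complex.normSq_apply] at h5
    simp only [Complex.add_re, Complex.ofReal_re, Complex.add_im, Complex.ofReal_im,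
      zero_add] at h5
    by_contra hcon
    push Not at hcon
    nlinarith [mul_self_nonneg v.im, mul_self_nonneg v.re]
  · rw [h1]
    have h5 := Complex.re_le_norm ((√3 : ℝ) + v)
    rw [Complex.add_re, Complex.ofReal_re] at h5
    linarith
  · rw [h1]
    have h5 := norm_add_le ((√3 : ℝ) : ℂ) v
    rw [Complex.norm_real, Real.norm_eq_abs, abs_of_nonneg (Real.sqrt_nonneg 3)] at h5
    linarith

/-! ### change of variables -/

lemma change {ι : Type} [Fintype ι] {lam θ : ℝ} (hl : 0 < lam) (c : ι → ℂ)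
    (H : (ι → ℂ) → ℝ≥0∞) (hH : Measurable H) :
    ∫⁻ y : ι → ℂ, H (fun q => (lam : ℂ) * (Complex.exp (-θ * Complex.I) * y q) + c q) =
      ENNReal.ofReal ((1 / lam) ^ (2 * Fintype.card ι)) * ∫⁻ u, H u := by
  set a : Circle := Circle.exp (-θ) with ha
  have h1 : MeasurePreserving (fun (y : ι → ℂ) (q : ι) => rotation a (y q)) :=
    volume_preserving_pi fun _ => (rotation a).measurePreserving
  set H1 : (ι → ℂ) → ℝ≥0∞ := fun u => H (u + c) with hH1
  have hH1m : Measurable H1 := hH.comp (measurable_id.add_const c)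
  set H2 : (ι → ℂ) → ℝ≥0∞ := fun u => H1 (lam • u) with hH2
  have hH2m : Measurable H2 := hH1m.comp (measurable_const_smul lam)
  have h2 : ∫⁻ y : ι → ℂ, H (fun q => (lam : ℂ) * (Complex.exp (-θ * Complex.I) * y q) + c q) =
      ∫⁻ y : ι → ℂ, H2 (fun q => rotation a (y q)) := by
    refine lintegral_congr fun y => ?_
    simp only [hH2, hH1]
    congr 1
    funext q
    simp only [Pi.add_apply, Pi.smul_apply, rotation_apply, ha, Circle.coe_exp,
      Complex.real_smul]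
    push_cast
    rfl
  rw [h2, h1.lintegral_comp hH2m]
  have h3 : ∫⁻ u, H2 u = ∫⁻ u, H1 u ∂(Measure.map (lam • ·) (volume : Measure (ι → ℂ))) := by
    rw [lintegral_map hH1m (measurable_const_smul lam)]
  rw [h3, Measure.map_addHaar_smul _ hl.ne', lintegral_smul_measure]
  have h4 : ∫⁻ u, H1 u = ∫⁻ u, H u := lintegral_add_right_eq_self H c
  rw [h4, smul_eq_mul]
  congr 2
  rw [Module.finrank_pi_fintype]
  simp only [Complex.finrank_real_complex, Finset.sum_const, Finset.card_univ, smul_eq_mul]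
  rw [abs_of_pos (by positivity), one_div, inv_pow, mul_comm]

/-! ### the linear model as a set -/

lemma continuous_De (n : ℕ) (e : Ed n) : Continuous (fun u : V n → ℂ => De n u e) :=
  Complex.continuous_re.comp (continuous_const.mul
    ((continuous_apply _).sub (continuous_apply _)))

lemma U_eq (n : ℕ) (r : ℝ) : U n r = (⋂ e, {u | 0 ≤ De n u e}) ∩ ⋂ q, {u | ‖u q‖ ≤ r} := by
  ext u
  simp only [U, Pos_iff, mem_ofPred_eq, mem_inter_iff, mem_iInter]

lemma measurableSet_U (n : ℕ) (r : ℝ) : MeasurableSet (U n r) := by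
  rw [U_eq]
  apply IsClosed.measurableSet
  refine IsClosed.inter (isClosed_iInter fun e => isClosed_le continuous_const
    (continuous_De n e)) (isClosed_iInter fun q => isClosed_le
      (continuous_norm.comp (continuous_apply q)) continuous_const)

lemma continuous_A (n : ℕ) : Continuous (fun u : V n → ℂ => A n (Pool.Agent.H96.CP.ext n u)) := by
  simp only [A_eq]
  exact continuous_finsetSum _ fun e _ => continuous_De n e

lemma Zf_eq (n : ℕ) (r : ℝ) : Zf n r = ∫⁻ u, (U n r).indicator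
    (fun u => ENNReal.ofReal (Real.exp (-A n (Pool.Agent.H96.CP.ext n u)))) u := by
  rw [lintegral_indicator (measurableSet_U n r)]
  rfl

lemma measurable_H (n : ℕ) (r : ℝ) : Measurable ((U n r).indicator
    (fun u => ENNReal.ofReal (Real.exp (-A n (Pool.Agent.H96.CP.ext n u))))) :=
  ((Real.continuous_exp.comp (continuous_A n).neg).measurable.ennreal_ofReal).indicator
    (measurableSet_U n r)

/-- lattice coordinates -/
noncomputable def ps (n : ℕ) (q : V n) : ℂ := ((q.1 : ℕ) : ℂ) + ((q.2 : ℕ) : ℂ) * om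

lemma ps_sub (n : ℕ) (e : Ed n) : ps n (tgt n e) - ps n (src n e) = dir n e := by
  rcases e with ⟨i, j⟩ | ⟨⟨i, j⟩ | ⟨i, j⟩⟩ <;> simp only [ps, tgt, src, dir, Fin.val_succ,
    Fin.val_castSucc] <;> push_cast <;> ring

lemma norm_ps (n : ℕ) (q : V n) : ‖ps n q‖ ≤ 2 * n := by
  have h1 : ((q.1 : ℕ) : ℝ) ≤ n := by exact_mod_cast Nat.le_of_lt_succ q.1.2
  have h2 : ((q.2 : ℕ) : ℝ) ≤ n := by exact_mod_cast Nat.le_of_lt_succ q.2.2
  calc ‖ps n q‖ ≤ ‖((q.1 : ℕ) : ℂ)‖ + ‖((q.2 : ℕ) : ℂ) * om‖ := norm_add_le _ _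
    _ = ((q.1 : ℕ) : ℝ) + ((q.2 : ℕ) : ℝ) := by
      rw [norm_mul, norm_om, mul_one, Complex.norm_natCast, Complex.norm_natCast]
    _ ≤ 2 * n := by linarith

lemma lat_ps (n : ℕ) (z₀ : ℂ) (θ : ℝ) (a b : ℤ) (q : V n) :
    lat z₀ θ (a + (q.1 : ℕ)) (b + (q.2 : ℕ)) =
      lat z₀ θ a b + (√3 : ℝ) * Complex.exp (θ * Complex.I) * ps n q := by
  unfold lat ps
  push_cast
  ring

theorem near : S_near := by
  intro ε hε
  set κ : ℝ := Real.exp (-(ε / 4)) with hκ
  have hκ0 : 0 < κ := Real.exp_pos _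
  have hκ1 : κ < 1 := by
    rw [hκ, Real.exp_lt_one_iff]
    linarith
  obtain ⟨δ₁, hδ₁, hgap⟩ := gap_ge hκ1
  refine ⟨min (min (ε / 12) (δ₁ / 2)) (1 / 10), by positivity, ?_⟩
  intro n s δ θ z₀ a b hn hs hδ hδ0 hsδ hnδ
  set δ₀ := min (min (ε / 12) (δ₁ / 2)) (1 / 10) with hδ₀
  have hb1 : δ₀ ≤ ε / 12 := (min_le_left _ _).trans (min_le_left _ _)
  have hb2 : δ₀ ≤ δ₁ / 2 := (min_le_left _ _).trans (min_le_right _ _)
  have hb3 : δ₀ ≤ 1 / 10 := min_le_right _ _
  have hs0 : 0 < s := by linarith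
  set lam := s * κ with hlam
  have hl0 : 0 < lam := mul_pos hs0 hκ0
  have hls : lam ≤ s := by nlinarith
  set c : V n → ℂ := fun q => (lam : ℂ) * (-(Complex.exp (-θ * Complex.I) *
    lat z₀ θ (a + (q.1 : ℕ)) (b + (q.2 : ℕ))) + (2 * δ ^ 2 : ℝ) * ps n q) with hc
  set H : (V n → ℂ) → ℝ≥0∞ := (U n s).indicator
    (fun u => ENNReal.ofReal (Real.exp (-A n (Pool.Agent.H96.CP.ext n u)))) with hH
  set Φ : (V n → ℂ) → (V n → ℂ) := fun y q =>
    (lam : ℂ) * (Complex.exp (-θ * Complex.I) * y q) + c q with hΦ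
  have hΦm : Measurable Φ := by
    refine measurable_pi_lambda _ fun q => ?_
    simp only [hΦ]
    fun_prop
  set C := ENNReal.ofReal (Real.exp (6 * δ₀ * (n + 1) ^ 2)) with hC
  have hexp : Complex.exp (-θ * Complex.I) * Complex.exp (θ * Complex.I) = 1 := by
    rw [← Complex.exp_add]
    simp
  have hnexp : ‖Complex.exp (θ * Complex.I)‖ = 1 := Complex.norm_exp_ofReal_mul_I θ
  have hnexp' : ‖Complex.exp (-θ * Complex.I)‖ = 1 := by
    have := Complex.norm_exp_ofReal_mul_I (-θ)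
    push_cast at this
    exact this
  have key : ∀ y ∈ {y : V n → ℂ | Sep y ∧
      ∀ q, ‖y q - lat z₀ θ (a + (q.1 : ℕ)) (b + (q.2 : ℕ))‖ ≤ δ},
      ENNReal.ofReal (Real.exp (-(s * Gp y))) ≤ C * H (Φ y) := by
    rintro y ⟨hy, hyδ⟩
    obtain ⟨u, hu⟩ : ∃ u : V n → ℂ, u = fun q => Complex.exp (-θ * Complex.I) *
      (y q - lat z₀ θ (a + (q.1 : ℕ)) (b + (q.2 : ℕ))) := ⟨_, rfl⟩
    have huδ : ∀ q, ‖u q‖ ≤ δ := by
      intro q
      rw [hu]
      simp only
      rw [norm_mul, hnexp', one_mul]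
      exact hyδ q
    have hv : ∀ q, Φ y q = (lam : ℂ) * (u q + (2 * δ ^ 2 : ℝ) * ps n q) := by
      intro q
      simp only [hΦ, hc, hu]
      ring
    have hyu : ∀ q, y q = lat z₀ θ a b + Complex.exp (θ * Complex.I) *
        ((√3 : ℝ) * ps n q + u q) := by
      intro q
      have h1 : Complex.exp (θ * Complex.I) * u q =
          y q - lat z₀ θ (a + (q.1 : ℕ)) (b + (q.2 : ℕ)) := by
        rw [hu]
        simp only
        rw [← mul_assoc, mul_comm (Complex.exp (θ * Complex.I)), hexp, one_mul]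
      rw [mul_add, h1, lat_ps]
      ring
    have hyd : ∀ e, ‖y (tgt n e) - y (src n e)‖ =
        ‖(√3 : ℝ) * dir n e + (u (tgt n e) - u (src n e))‖ := by
      intro e
      have h1 : y (tgt n e) - y (src n e) = Complex.exp (θ * Complex.I) *
          ((√3 : ℝ) * dir n e + (u (tgt n e) - u (src n e))) := by
        rw [hyu, hyu, ← ps_sub]
        ring
      rw [h1, norm_mul, hnexp, one_mul]
    have hedge : ∀ e, -(2 * δ ^ 2) ≤ De n u e ∧ De n u e ≤ ‖y (tgt n e) - y (src n e)‖ - √3 ∧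
        ‖y (tgt n e) - y (src n e)‖ ≤ √3 + 2 * δ := by
      intro e
      have h3 : √3 ≤ ‖y (tgt n e) - y (src n e)‖ := hy _ _ (src_ne_tgt n e).symm
      rw [hyd] at h3 ⊢
      refine edge (norm_dir n e) ?_ (hδ0.trans hb3) h3
      calc ‖u (tgt n e) - u (src n e)‖ ≤ ‖u (tgt n e)‖ + ‖u (src n e)‖ := norm_sub_le _ _
        _ ≤ 2 * δ := by linarith [huδ (tgt n e), huδ (src n e)]
    have hDv : ∀ e, De n (Φ y) e = lam * (De n u e + 2 * δ ^ 2) := by
      intro e
      have h1 : conj (dir n e) * (Φ y (tgt n e) - Φ y (src n e)) = ((lam : ℝ) : ℂ) *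
          (conj (dir n e) * (u (tgt n e) - u (src n e)) + ((2 * δ ^ 2 : ℝ) : ℂ)) := by
        have h2 : Φ y (tgt n e) - Φ y (src n e) = (lam : ℂ) *
            ((u (tgt n e) - u (src n e)) + (2 * δ ^ 2 : ℝ) * dir n e) := by
          rw [hv, hv, ← ps_sub]
          ring
        rw [h2]
        have h3 := conj_mul_self (norm_dir n e)
        linear_combination ((lam : ℝ) : ℂ) * ((2 * δ ^ 2 : ℝ) : ℂ) * h3
      unfold De
      rw [h1, Complex.re_ofReal_mul, Complex.add_re, Complex.ofReal_re]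
    have hmem : Φ y ∈ U n s := by
      refine ⟨(Pos_iff n _).2 fun e => ?_, fun q => ?_⟩
      · rw [hDv]
        exact mul_nonneg hl0.le (by linarith [(hedge e).1])
      · rw [hv, norm_mul, Complex.norm_real, Real.norm_eq_abs, abs_of_pos hl0]
        have h1 : ‖u q + ((2 * δ ^ 2 : ℝ) : ℂ) * ps n q‖ ≤ 1 := by
          calc ‖u q + ((2 * δ ^ 2 : ℝ) : ℂ) * ps n q‖
              ≤ ‖u q‖ + ‖((2 * δ ^ 2 : ℝ) : ℂ) * ps n q‖ := norm_add_le _ _
            _ ≤ δ + 2 * δ ^ 2 * (2 * n) := by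
              rw [norm_mul, Complex.norm_real, Real.norm_eq_abs, abs_of_nonneg (by positivity)]
              exact add_le_add (huδ q) (mul_le_mul_of_nonneg_left (norm_ps n q) (by positivity))
            _ ≤ 1 := by nlinarith
        calc lam * ‖u q + ((2 * δ ^ 2 : ℝ) : ℂ) * ps n q‖ ≤ lam * 1 :=
              mul_le_mul_of_nonneg_left h1 hl0.le
          _ ≤ s := by linarith
    have hlt2 : ∀ e, ‖y (tgt n e) - y (src n e)‖ < 2 := by
      intro e
      have h3 := (hedge e).2.2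
      have h4 := sqrt3_lt
      linarith
    have hG := Gp_ge hy hlt2
    have hG2 : κ * ∑ e, De n u e ≤ Gp y := by
      refine le_trans ?_ hG
      rw [Finset.mul_sum]
      refine Finset.sum_le_sum fun e _ => ?_
      have h5 := hgap (y (tgt n e) - y (src n e)) (hy _ _ (src_ne_tgt n e).symm)
        (by linarith [(hedge e).2.2])
      have h6 := mul_le_mul_of_nonneg_left (hedge e).2.1 hκ0.le
      linarith
    have hAv : A n (Pool.Agent.H96.CP.ext n (Φ y)) =
        lam * ∑ e, De n u e + lam * (2 * δ ^ 2) * Fintype.card (Ed n) := by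
      rw [A_eq]
      simp_rw [hDv]
      rw [← Finset.mul_sum, Finset.sum_add_distrib, Finset.sum_const, Finset.card_univ,
        nsmul_eq_mul]
      ring
    rw [hH, indicator_of_mem hmem, hC, ← ENNReal.ofReal_mul (Real.exp_pos _).le, ← Real.exp_add]
    refine ENNReal.ofReal_le_ofReal (Real.exp_le_exp.2 ?_)
    rw [hAv]
    have h7 : s * (κ * ∑ e, De n u e) ≤ s * Gp y := mul_le_mul_of_nonneg_left hG2 hs0.le
    have h8 : lam * (2 * δ ^ 2) * Fintype.card (Ed n) ≤ 6 * δ₀ * ((n : ℝ) + 1) ^ 2 := by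
      have h9 : lam * (2 * δ ^ 2) ≤ 2 * δ₀ := by nlinarith [sq_nonneg δ]
      calc lam * (2 * δ ^ 2) * Fintype.card (Ed n)
          ≤ lam * (2 * δ ^ 2) * (3 * ((n : ℝ) + 1) ^ 2) :=
            mul_le_mul_of_nonneg_left (card_Ed n) (by positivity)
        _ ≤ 2 * δ₀ * (3 * ((n : ℝ) + 1) ^ 2) :=
            mul_le_mul_of_nonneg_right h9 (by positivity)
        _ = _ := by ring
    rw [hlam] at h8 ⊢
    linarith
  have hfin : C * (ENNReal.ofReal ((1 / lam) ^ (2 * Fintype.card (V n)))) ≤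
      ENNReal.ofReal (Real.exp (ε * (n + 1) ^ 2) * (1 / s) ^ (2 * (n + 1) ^ 2)) := by
    rw [hC, ← ENNReal.ofReal_mul (Real.exp_pos _).le]
    refine ENNReal.ofReal_le_ofReal ?_
    have h1 : Fintype.card (V n) = (n + 1) ^ 2 := by
      simp only [Fintype.card_prod, Fintype.card_fin]
      ring
    rw [h1, hlam]
    have h2 : (1 / (s * κ)) ^ (2 * (n + 1) ^ 2) =
        (1 / s) ^ (2 * (n + 1) ^ 2) * Real.exp (ε / 2 * ((n : ℝ) + 1) ^ 2) := by
      rw [one_div, mul_inv, mul_pow, ← one_div]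
      congr 1
      rw [hκ, ← Real.exp_neg, ← Real.exp_nat_mul]
      congr 1
      push_cast
      ring
    rw [h2]
    have h3 : Real.exp (6 * δ₀ * ((n : ℝ) + 1) ^ 2) * Real.exp (ε / 2 * ((n : ℝ) + 1) ^ 2) ≤
        Real.exp (ε * ((n : ℝ) + 1) ^ 2) := by
      rw [← Real.exp_add]
      refine Real.exp_le_exp.2 ?_
      have : 0 < ((n : ℝ) + 1) ^ 2 := by positivity
      nlinarith
    have h4 : 0 < (1 / s) ^ (2 * (n + 1) ^ 2) := by positivity
    nlinarith
  calc ∫⁻ y in {y : V n → ℂ | Sep y ∧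
        ∀ q, ‖y q - lat z₀ θ (a + (q.1 : ℕ)) (b + (q.2 : ℕ))‖ ≤ δ},
        ENNReal.ofReal (Real.exp (-(s * Gp y)))
      ≤ ∫⁻ y in {y : V n → ℂ | Sep y ∧
        ∀ q, ‖y q - lat z₀ θ (a + (q.1 : ℕ)) (b + (q.2 : ℕ))‖ ≤ δ}, C * H (Φ y) :=
        setLIntegral_mono (((measurable_H n s).comp hΦm).const_mul C) key
    _ ≤ ∫⁻ y, C * H (Φ y) := setLIntegral_le_lintegral _ _
    _ = C * ∫⁻ y, H (Φ y) := lintegral_const_mul _ ((measurable_H n s).comp hΦm)
    _ = C * (ENNReal.ofReal ((1 / lam) ^ (2 * Fintype.card (V n))) * Zf n s) := by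
        rw [Zf_eq, hΦ, change hl0 c H (measurable_H n s)]
    _ ≤ _ := by
        rw [← mul_assoc]
        exact mul_le_mul_left hfin _

end Pool.Agent.H61.CP
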