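import Pool.Agent.H61.CP.Hole

set_option autoImplicit false

open Real Set MeasureTheory Metric Filter Topology
open scoped ENNReal Nat ComplexConjugate

namespace Pool.Agent.H96.CP

/-- the free region -/
def AA (a L : ℝ) {N : ℕ} (x : Fin N → ℂ) : Set ℂ :=
  {y | (y.re ∈ Icc 0 L ∧ y.im ∈ Icc 0 L) ∧ ∀ i, 2 * a ≤ ‖y - x i‖}

/-- the free pairs -/
def BB (a L : ℝ) {N : ℕ} (x : Fin N → ℂ) : Set (ℂ × ℂ) :=
  {p | p.1 ∈ AA a L x ∧ p.2 ∈ AA a L x ∧ 2 * a ≤ ‖p.1 - p.2‖}

theorem CC_meas (a L : ℝ) (n : ℕ) : MeasurableSet (CC a L (Fin n)) := by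
  have h1 : CC a L (Fin n) = (⋂ i, ({x : Fin n → ℂ | 0 ≤ (x i).re} ∩ {x | (x i).re ≤ L} ∩
      {x | 0 ≤ (x i).im} ∩ {x | (x i).im ≤ L})) ∩
      ⋂ i, ⋂ j, ⋂ (_ : i ≠ j), {x : Fin n → ℂ | 2 * a ≤ ‖x i - x j‖} := by
    ext x
    simp [CC, and_assoc]
  rw [h1]
  refine MeasurableSet.inter (MeasurableSet.iInter fun i => ?_) ?_
  · refine ((MeasurableSet.inter ?_ ?_).inter ?_).inter ?_
    · exact measurableSet_le measurable_const (Complex.measurable_re.comp (measurable_pi_apply i))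
    · exact measurableSet_le (Complex.measurable_re.comp (measurable_pi_apply i)) measurable_const
    · exact measurableSet_le measurable_const (Complex.measurable_im.comp (measurable_pi_apply i))
    · exact measurableSet_le (Complex.measurable_im.comp (measurable_pi_apply i)) measurable_const
  · refine MeasurableSet.iInter fun i => MeasurableSet.iInter fun j => MeasurableSet.iInter fun _ => ?_
    exact measurableSet_le measurable_const (by fun_prop)

/-- the pairs -/
def TT (a L : ℝ) (N m : ℕ) : Set ((Fin N → ℂ) × (Fin m → ℂ)) :=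
  {p | p.2 ∈ CC a L (Fin m) ∧ ∀ i j, 2 * a ≤ ‖p.2 j - p.1 i‖}

theorem TT_meas (a L : ℝ) (N m : ℕ) : MeasurableSet (TT a L N m) := by
  have h1 : TT a L N m = (Prod.snd ⁻¹' CC a L (Fin m)) ∩
      ⋂ i, ⋂ j, {p : (Fin N → ℂ) × (Fin m → ℂ) | 2 * a ≤ ‖p.2 j - p.1 i‖} := by
    ext x
    simp [TT]
  rw [h1]
  refine (measurable_snd (CC_meas a L m)).inter
    (MeasurableSet.iInter fun i => MeasurableSet.iInter fun j => measurableSet_le measurable_const ?_)
  fun_prop

theorem fub (a L : ℝ) (N m : ℕ) : volume (CC a L (Fin (N + m))) =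
    ∫⁻ x in CC a L (Fin N), volume (Prod.mk x ⁻¹' TT a L N m) := by
  have h0 : MeasurableSet {p : (Fin N → ℂ) × (Fin m → ℂ) | p.1 ∈ CC a L (Fin N) ∧ p.2 ∈ CC a L (Fin m) ∧
      ∀ i j, 2 * a ≤ ‖p.2 j - p.1 i‖} :=
    (measurable_fst (CC_meas a L N)).inter (TT_meas a L N m)
  rw [← hole, Measure.volume_eq_prod, Measure.prod_apply h0, ← lintegral_indicator (CC_meas a L N)]
  congr 1 with x
  by_cases hx : x ∈ CC a L (Fin N)
  · rw [indicator_of_mem hx]
    congr 1
    ext z
    simp [TT, hx]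
  · rw [indicator_of_notMem hx]
    convert measure_empty
    · ext z
      simp [hx]
    · infer_instance

theorem one_eq (a L : ℝ) {N : ℕ} (x : Fin N → ℂ) :
    volume (Prod.mk x ⁻¹' TT a L N 1) = volume (AA a L x) := by
  rw [← (volume_preserving_funUnique (Fin 1) ℂ).measure_preimage_equiv]
  congr 1
  ext z
  simp [CC, AA, TT, Fin.forall_fin_one]

theorem two_eq (a L : ℝ) {N : ℕ} (x : Fin N → ℂ) :
    volume (Prod.mk x ⁻¹' TT a L N 2) = volume (BB a L x) := by
  rw [← (volume_preserving_finTwoArrow ℂ).measure_preimage_equiv]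
  congr 1
  ext z
  simp only [CC, AA, BB, TT, mem_preimage, mem_ofPred_eq, Fin.forall_fin_two, MeasurableEquiv.finTwoArrow_apply]
  constructor
  · rintro ⟨⟨⟨h1, h2⟩, h3⟩, h4⟩
    exact ⟨⟨h1, fun i => (h4 i).1⟩, ⟨h2, fun i => (h4 i).2⟩, h3.1.2 (by decide)⟩
  · rintro ⟨⟨h1, h2⟩, ⟨h3, h4⟩, h5⟩
    refine ⟨⟨⟨h1, h3⟩, ⟨fun h => absurd rfl h, fun _ => h5⟩, fun _ => ?_, fun h => absurd rfl h⟩, fun i => ⟨h2 i, h4 i⟩⟩
    rw [norm_sub_rev]
    exact h5

theorem AA_meas (a L : ℝ) {N : ℕ} (x : Fin N → ℂ) : MeasurableSet (AA a L x) := by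
  have h1 : AA a L x = ({y : ℂ | 0 ≤ y.re} ∩ {y | y.re ≤ L} ∩ {y | 0 ≤ y.im} ∩ {y | y.im ≤ L}) ∩
      ⋂ i, {y : ℂ | 2 * a ≤ ‖y - x i‖} := by
    ext y
    simp [AA, and_assoc]
  rw [h1]
  refine (((MeasurableSet.inter ?_ ?_).inter ?_).inter ?_).inter (MeasurableSet.iInter fun i => ?_)
  · exact measurableSet_le measurable_const Complex.measurable_re
  · exact measurableSet_le Complex.measurable_re measurable_const
  · exact measurableSet_le measurable_const Complex.measurable_im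
  · exact measurableSet_le Complex.measurable_im measurable_const
  · exact measurableSet_le measurable_const (by fun_prop)

theorem pt_bound {a : ℝ} (ha : 0 < a) (L : ℝ) {N : ℕ} (x : Fin N → ℂ) :
    volume (AA a L x) ^ 2 ≤ volume (BB a L x) + ENNReal.ofReal (4 * π * a ^ 2) * volume (AA a L x) := by
  set C : Set (ℂ × ℂ) := {p | p.1 ∈ AA a L x ∧ p.2 ∈ ball p.1 (2 * a)} with hC
  have hCm : MeasurableSet C := by
    have h1 : C = (Prod.fst ⁻¹' AA a L x) ∩ {p : ℂ × ℂ | dist p.2 p.1 < 2 * a} := by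
      ext p
      simp [hC, mem_ball]
    rw [h1]
    exact (measurable_fst (AA_meas a L x)).inter (measurableSet_lt (by fun_prop) measurable_const)
  have h1 : AA a L x ×ˢ AA a L x ⊆ BB a L x ∪ C := by
    rintro ⟨y, y'⟩ ⟨h2, h3⟩
    by_cases h4 : 2 * a ≤ ‖y - y'‖
    · exact Or.inl ⟨h2, h3, h4⟩
    · refine Or.inr ⟨h2, ?_⟩
      rw [mem_ball, dist_eq_norm, norm_sub_rev]
      exact not_le.1 h4
  have h5 : volume C = ENNReal.ofReal (4 * π * a ^ 2) * volume (AA a L x) := by
    rw [Measure.volume_eq_prod, Measure.prod_apply hCm]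
    have h6 : ∀ y : ℂ, volume (Prod.mk y ⁻¹' C) = (AA a L x).indicator (fun _ => ENNReal.ofReal (4 * π * a ^ 2)) y := by
      intro y
      by_cases hy : y ∈ AA a L x
      · rw [indicator_of_mem hy]
        have h7 : Prod.mk y ⁻¹' C = ball y (2 * a) := by
          ext z
          simp [hC, hy]
        rw [h7, Complex.volume_ball]
        rw [show (NNReal.pi : ℝ≥0∞) = ENNReal.ofReal π from (ENNReal.ofReal_eq_coe_nnreal pi_pos.le).symm,
          ← ENNReal.ofReal_pow (by positivity), ← ENNReal.ofReal_mul (by positivity)]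
        congr 1
        ring
      · rw [indicator_of_notMem hy]
        have h7 : Prod.mk y ⁻¹' C = ∅ := by
          ext z
          simp [hC, hy]
        rw [h7, measure_empty]
    simp_rw [h6]
    rw [lintegral_indicator (AA_meas a L x), setLIntegral_const]
  calc volume (AA a L x) ^ 2 = volume (AA a L x ×ˢ AA a L x) := by
        rw [Measure.volume_eq_prod, Measure.prod_prod, sq]
    _ ≤ volume (BB a L x) + volume C := (measure_mono h1).trans (measure_union_le _ _)
    _ = _ := by rw [h5]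

theorem CC_fin (a L : ℝ) (n : ℕ) : volume (CC a L (Fin n)) ≠ ∞ := by
  have h1 : CC a L (Fin n) ⊆ closedBall 0 (2 * |L|) := by
    intro x hx
    rw [mem_closedBall, dist_zero_right]
    refine (pi_norm_le_iff_of_nonneg (by positivity)).2 fun i => ?_
    obtain ⟨h2, h3⟩ := hx.1 i
    refine (Complex.norm_le_abs_re_add_abs_im _).trans ?_
    rw [abs_of_nonneg h2.1, abs_of_nonneg h3.1]
    have := le_abs_self L
    linarith [h2.2, h3.2]
  exact ((measure_mono h1).trans_lt measure_closedBall_lt_top).ne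

theorem cs {α : Type*} [MeasurableSpace α] (μ : Measure α) {f : α → ℝ≥0∞} (hf : AEMeasurable f μ) :
    (∫⁻ x, f x ∂μ) ^ 2 ≤ μ univ * ∫⁻ x, f x ^ 2 ∂μ := by
  have h1 := ENNReal.lintegral_mul_le_Lp_mul_Lq μ Real.HolderConjugate.two_two hf
    (aemeasurable_const (b := (1 : ℝ≥0∞)))
  simp only [Pi.mul_apply, mul_one, ENNReal.one_rpow, lintegral_const, one_mul] at h1
  have h2 := pow_le_pow_left' h1 2
  refine h2.trans (le_of_eq ?_)
  rw [mul_pow, mul_comm]
  congr 1
  · rw [← ENNReal.rpow_natCast, ← ENNReal.rpow_mul]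
    norm_num
  · rw [← ENNReal.rpow_natCast, ← ENNReal.rpow_mul]
    norm_num

theorem ratio : S_ratio := by
  intro a L N ha hL
  have h1 := fub a L N 1
  have h2 := fub a L N 2
  simp_rw [two_eq] at h2
  have hm : Measurable (fun x : Fin N → ℂ => volume (Prod.mk x ⁻¹' TT a L N 1)) :=
    measurable_measure_prodMk_left (TT_meas a L N 1)
  have h3 := cs (volume.restrict (CC a L (Fin N))) hm.aemeasurable
  rw [← h1, Measure.restrict_apply_univ] at h3
  simp_rw [one_eq] at h1 h3 hm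
  have h4 : ∫⁻ x in CC a L (Fin N), volume (AA a L x) ^ 2 ≤ volume (CC a L (Fin (N + 2))) +
      ENNReal.ofReal (4 * π * a ^ 2) * volume (CC a L (Fin (N + 1))) := by
    rw [h1, h2, ← lintegral_const_mul _ hm, ← lintegral_add_right _ (hm.const_mul _)]
    exact lintegral_mono fun x => pt_bound ha L x
  have h5 : volume (CC a L (Fin (N + 1))) ^ 2 ≤ volume (CC a L (Fin N)) * (volume (CC a L (Fin (N + 2))) +
      ENNReal.ofReal (4 * π * a ^ 2) * volume (CC a L (Fin (N + 1)))) :=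
    h3.trans (mul_le_mul_right h4 _)
  have f0 := CC_fin a L N
  have f1 := CC_fin a L (N + 1)
  have f2 := CC_fin a L (N + 2)
  have h6 := ENNReal.toReal_mono (by finiteness) h5
  rw [ENNReal.toReal_pow, ENNReal.toReal_mul, ENNReal.toReal_add (by finiteness) (by finiteness), ENNReal.toReal_mul,
    ENNReal.toReal_ofReal (by positivity)] at h6
  exact h6

end Pool.Agent.H96.CP
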