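import Pool.Agent.H96.CP.Stm6
import Pool.Agent.H96.CP.Sq2

/-!
# Project CP: `S_sqp` from `S_sq`
-/

set_option autoImplicit false

open Real Set MeasureTheory Metric Filter Topology
open scoped ENNReal Nat ComplexConjugate

namespace Pool.Agent.H61.CP

open Pool.Agent.H96.CP

theorem ph_nonneg {τ d : ℝ} (hd : 0 ≤ d) : 0 ≤ ph τ d := by
  unfold ph
  split_ifs
  · linarith
  · exact hd

/-- no large defect: the costs agree -/
theorem Wp_eq {k : ℕ} {τ : ℝ} {Λ : Set ℂ} {x : Fin k → ℂ}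
    (h : ∀ i, closedBall (x i) 2 ⊆ Λ → dfc x i ≤ τ) : Wp τ Λ x = W Λ x := by
  unfold Wp W
  refine Finset.sum_congr rfl fun i _ => ?_
  by_cases hi : closedBall (x i) 2 ⊆ Λ
  · rw [if_pos hi, if_pos hi]
    have h1 := h i hi
    rw [dfc_eq] at h1
    rw [dfc_eq]
    unfold ph
    rw [if_neg (not_lt.mpr h1)]
  · rw [if_neg hi, if_neg hi]

/-- a large defect costs `τ / 2` -/
theorem le_Wp {k : ℕ} {M τ : ℝ} {x : Fin k → ℂ} (h : ∀ i, x i ∈ Qd M 0) (hx : Sep x) (i : Fin k)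
    (hi : closedBall (x i) 2 ⊆ Qd M 0) (hτ : τ < dfc x i) : τ / 2 ≤ Wp τ (Qd M 0) x := by
  classical
  unfold Wp
  refine le_trans ?_ (Finset.single_le_sum (fun j _ => ?_) (Finset.mem_univ i))
  · rw [if_pos hi]
    rw [dfc_eq] at hτ
    rw [dfc_eq]
    unfold ph
    rw [if_pos hτ]
    linarith
  · split_ifs
    · rw [dfc_eq]
      exact ph_nonneg (Pool.Agent.H96.HD.stab (mem_Kc h hx) j).1
    · exact le_rfl

theorem ZRp_eq (s τ M : ℝ) (k : ℕ) : ZRp s τ (Qd M 0) k = (((k ! : ℕ) : ℝ≥0∞))⁻¹ *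
    ∫⁻ x in Ek M k, ENNReal.ofReal (Real.exp (-(s * Wp τ (Qd M 0) x))) := rfl

theorem ZRp_le {s τ M : ℝ} (hs : 0 ≤ s) (hM : 0 ≤ M) (k : ℕ) :
    ZRp s τ (Qd M 0) k ≤ ZR s (Qd M 0) k +
      ENNReal.ofReal (M ^ (2 * k) * Real.exp (-(s * (τ / 2)))) := by
  have hpt : ∀ x ∈ Ek M k, ENNReal.ofReal (Real.exp (-(s * Wp τ (Qd M 0) x))) ≤
      ENNReal.ofReal (Real.exp (-(s * W (Qd M 0) x))) +
        ENNReal.ofReal (Real.exp (-(s * (τ / 2)))) := by
    intro x hx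
    by_cases hbad : ∃ i, closedBall (x i) 2 ⊆ Qd M 0 ∧ τ < dfc x i
    · obtain ⟨i, hi, hτ⟩ := hbad
      refine le_trans (ENNReal.ofReal_le_ofReal (Real.exp_le_exp.mpr ?_)) le_add_self
      have := mul_le_mul_of_nonneg_left (le_Wp hx.1 hx.2 i hi hτ) hs
      linarith
    · push Not at hbad
      rw [Wp_eq hbad]
      exact le_self_add
  rw [ZRp_eq, ZR_eq]
  calc (((k ! : ℕ) : ℝ≥0∞))⁻¹ * ∫⁻ x in Ek M k, ENNReal.ofReal (Real.exp (-(s * Wp τ (Qd M 0) x)))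
      ≤ (((k ! : ℕ) : ℝ≥0∞))⁻¹ * ∫⁻ x in Ek M k, (ENNReal.ofReal (Real.exp (-(s * W (Qd M 0) x))) +
        ENNReal.ofReal (Real.exp (-(s * (τ / 2))))) :=
        mul_le_mul_right (setLIntegral_mono' (measurableSet_Ek M k) hpt) _
    _ = (((k ! : ℕ) : ℝ≥0∞))⁻¹ * (∫⁻ x in Ek M k, ENNReal.ofReal (Real.exp (-(s * W (Qd M 0) x)))) +
        (((k ! : ℕ) : ℝ≥0∞))⁻¹ * (ENNReal.ofReal (Real.exp (-(s * (τ / 2)))) * volume (Ek M k)) := by
        rw [lintegral_add_right _ measurable_const, setLIntegral_const, mul_add]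
    _ ≤ _ := by
        refine add_le_add le_rfl ?_
        calc (((k ! : ℕ) : ℝ≥0∞))⁻¹ * (ENNReal.ofReal (Real.exp (-(s * (τ / 2)))) * volume (Ek M k)) ≤
            1 * (ENNReal.ofReal (Real.exp (-(s * (τ / 2)))) * ENNReal.ofReal (M ^ (2 * k))) :=
              mul_le_mul' (inv_fac_le_one k) (mul_le_mul_right (volume_Ek_le hM k) _)
          _ = _ := by
              rw [one_mul, mul_comm (M ^ (2 * k)), ENNReal.ofReal_mul (by positivity)]

theorem sqp (h : S_sq) : S_sqp := by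
  intro ε B hε hB
  have hlog := Real.tendsto_log_atTop
  have hl4 : ∀ᶠ ℓ : ℝ in atTop, 4 * Real.log ℓ ≤ ℓ := by
    have h2 : Tendsto (fun M : ℝ => Real.log M / M) atTop (𝓝 0) :=
      Real.isLittleO_log_id_atTop.tendsto_div_nhds_zero
    filter_upwards [h2.eventually_le_const (show (0:ℝ) < 1 / 4 by positivity),
      eventually_ge_atTop (1:ℝ)] with M h3 h4
    rw [div_le_iff₀ (by linarith)] at h3
    linarith
  filter_upwards [h (ε / 2) B (by positivity) hB, hlog.eventually hl4,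
    hlog.eventually_ge_atTop (100 + B + 2 / ε), eventually_ge_atTop (1:ℝ)] with s hsq hl hΛ hs
  intro β hβ hZ k τ hτ
  have hs0 : 0 < s := by linarith
  set ℓ := Real.log s with hℓ
  have hε1 : 0 < 2 / ε := by positivity
  have hℓ1 : 100 ≤ ℓ := by linarith
  have hBℓ : B ≤ ℓ := by linarith
  have hεℓ : 2 ≤ ε * ℓ := by
    have h1 : 2 / ε ≤ ℓ := by linarith
    rw [div_le_iff₀ hε] at h1
    linarith
  set M := MM s with hM
  have hMℓ : M = ℓ ^ 4 := rfl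
  have hℓ3 : 1 ≤ ℓ ^ 3 := one_le_pow₀ (by linarith)
  have hM1 : 100 ≤ M := by
    rw [hMℓ]
    nlinarith [hℓ3]
  have hM0 : 0 < M := by linarith
  have hlM : Real.log M ≤ ℓ := by
    rw [hMℓ, Real.log_pow]
    push_cast
    exact hl
  have hlM0 : 0 ≤ Real.log M := Real.log_nonneg (by linarith)
  have hβ2 := abs_le.mp hβ
  by_cases hk2 : (M + 1) ^ 2 < k
  · have hem : Ek M k = ∅ := by
      ext x
      simp only [mem_empty_iff_false, iff_false]
      intro hx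
      have := card_le hM0.le hx.1 hx.2
      linarith
    rw [ZRp_eq, hem]
    simp
  push Not at hk2
  have hM12 : (M + 1) ^ 2 ≤ 4 * M ^ 2 := by nlinarith
  have hk3 : (k : ℝ) ≤ 4 * M ^ 2 := hk2.trans hM12
  set E : ℝ := k * (β - 2 * ℓ) with hE
  refine (ZRp_le hs0.le hM0.le k).trans ?_
  refine (add_le_add (hsq β hβ hZ k) le_rfl).trans ?_
  rw [← ENNReal.ofReal_add (by positivity) (by positivity)]
  refine ENNReal.ofReal_le_ofReal ?_
  have hlog2 : Real.log 2 ≤ 1 := by linarith [Real.log_two_lt_d9]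
  have half : Real.exp (E + ε * M ^ 2) =
      Real.exp (E + ε * M ^ 2 - Real.log 2) + Real.exp (E + ε * M ^ 2 - Real.log 2) := by
    rw [Real.exp_sub, Real.exp_log two_pos]
    ring
  rw [half]
  have hε8 : 2 ≤ ε * M ^ 2 := by
    have h6 : (1:ℝ) ≤ ℓ ^ 7 := one_le_pow₀ (by linarith)
    calc (2 : ℝ) ≤ (ε * ℓ) * 1 := by linarith
      _ ≤ (ε * ℓ) * ℓ ^ 7 := by gcongr
      _ = ε * M ^ 2 := by rw [hMℓ]; ring
  refine add_le_add ?_ ?_
  · rw [Real.exp_le_exp]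
    linarith
  · have hMexp : ∀ j : ℕ, M ^ j = Real.exp (j * Real.log M) := fun j => by
      rw [← Real.log_pow, Real.exp_log (by positivity)]
    rw [hMexp, ← Real.exp_add, Real.exp_le_exp]
    push_cast
    have hcost0 : 0 ≤ 2 * Real.log M + 2 * ℓ + B := by linarith
    have hcost : 2 * Real.log M + 2 * ℓ + B ≤ 5 * ℓ := by linarith
    have h6 : (k : ℝ) * (2 * Real.log M + 2 * ℓ + B) ≤ 4 * M ^ 2 * (5 * ℓ) := by gcongr
    have h7 : 4 * M ^ 2 * (5 * ℓ) = 20 * ℓ ^ 9 := by rw [hMℓ]; ring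
    have h8 : 1 ≤ ℓ ^ 9 := one_le_pow₀ (by linarith)
    have h9 : 100 * ℓ ^ 9 ≤ ℓ ^ 10 := by
      calc 100 * ℓ ^ 9 ≤ ℓ * ℓ ^ 9 := by gcongr
        _ = ℓ ^ 10 := by ring
    have h10 : (k : ℝ) * (-B) ≤ k * β := by
      gcongr
      exact hβ2.1
    rw [hE]
    nlinarith

end Pool.Agent.H61.CP
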